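import Pool.Agent.Lib.MP_6b029b_lc.H57.Model
import Pool.Agent.Lib.MP_c5d73d_lc.F.Assembly
import Pool.Agent.Lib.MP_c5d73d_lc.F.H8.Zb1
import Pool.Agent.Lib.MP_c5d73d_lc.F.H64.Zf

/-!
# A Boolean-valued model of ZFC in which the universality statement fails
-/

universe u v w

open scoped symmDiff
open Cardinal

namespace Pool.Agent.Lib.MP_6b029b_lc.H57

open Pool.Agent.Lib.MP_100a6c_lc Pool.Agent.Lib.MP_c5d73d_lc.F
open Pool.Agent.Lib.MP_100a6c_lc.H53 (Coh)

/-- ZFC holds in `V^B`. -/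
theorem zfc_VB (B : Type u) [CompleteBooleanAlgebra B] : ZFC (VB B) = ⊤ :=
  zfc_of H8.zb1 H8.zb2 H64.zb3 H64.zb4 H64.zsep H64.zrep B

theorem mk_coh_le (X : Type u) [Infinite X] : #(Coh X) ≤ #X := by
  have h1 : #(Coh X) ≤ #(Finset X × Finset X) := by
    refine mk_le_of_injective (f := fun p : Coh X => (p.pos, p.neg)) fun p q h => ?_
    exact coh_ext (congrArg Prod.fst h) (congrArg Prod.snd h)
  refine h1.trans ?_
  rw [mk_prod, lift_id, mk_finset_of_infinite]
  exact (mul_eq_self (aleph0_le_mk X)).le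

theorem exists_code (K : Type u) (hK : #K = 2 ^ continuum.{u}) :
    ∃ code : Ix K → ℕ → ℕ → Option (Coh (Bt K)), Function.Surjective code := by
  have h0 : ℵ₀ ≤ #K := by
    rw [hK]
    exact aleph0_le_continuum.trans (cantor _).le
  have : Infinite K := infinite_iff.2 h0
  have hIx : #(Ix K) = #K := by
    rw [mk_prod, lift_uzero, mk_bool, lift_ofNat]
    exact mul_eq_left h0 ((nat_lt_aleph0 2).le.trans h0) two_ne_zero
  have hBt : #(Bt K) = #K := by
    rw [mk_prod, lift_uzero, mk_nat, lift_aleph0, hIx]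
    exact mul_eq_left h0 h0 aleph0_ne_zero
  have h1 : #(Option (Coh (Bt K))) ≤ #K := by
    rw [mk_option]
    refine (add_le_add ((mk_coh_le (Bt K)).trans hBt.le)
      (one_lt_aleph0.le.trans h0)).trans ?_
    rw [add_eq_self h0]
  have h2 : (#K) ^ (ℵ₀ : Cardinal.{u}) = #K := by
    rw [hK, ← power_mul, continuum_mul_aleph0]
  have h3 : #(ℕ → Option (Coh (Bt K))) ≤ #K := by
    rw [mk_arrow, lift_uzero, mk_nat, lift_aleph0, ← h2]
    exact power_le_power_right h1
  have h4 : #(ℕ → ℕ → Option (Coh (Bt K))) ≤ #(Ix K) := by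
    rw [mk_arrow, lift_uzero, mk_nat, lift_aleph0, hIx, ← h2]
    exact power_le_power_right h3
  obtain ⟨f⟩ := h4
  have : Nonempty (ℕ → ℕ → Option (Coh (Bt K))) := ⟨fun _ _ => none⟩
  exact ⟨Function.invFun f, Function.invFun_surjective f.injective⟩

/-- The Boolean-valued model. -/
theorem boolean_model : ∃ (B : Type u) (_ : CompleteBooleanAlgebra B),
    (⊥ : B) ≠ ⊤ ∧ ZFC (VB B) = ⊤ ∧ Universality (VB B) = ⊥ := by
  let K : Type u := Quotient.out (2 ^ continuum.{u} : Cardinal.{u})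
  have hK : #K = 2 ^ continuum.{u} := mk_out _
  obtain ⟨code, hcode⟩ := exists_code K hK
  refine ⟨H1.RO (Coh (Bt K) × Cd K), inferInstance, ?_, zfc_VB _, ?_⟩
  · have hd := dns_pr (Coh (Bt K) × Cd K)
    intro h
    have p : Coh (Bt K) × Cd K := (⟨∅, ∅, by simp⟩, ⟨∅, fun _ _ => False, Set.countable_empty⟩)
    exact hd.ne_bot p (le_bot_iff.1 (h ▸ le_top))
  · exact universality_eq_bot (A := H1.RO (Coh (Bt K))) (hK ▸ cantor _) (dns_pr _) (dns_pr _) code
      hcode

end Pool.Agent.Lib.MP_6b029b_lc.H57
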