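import Pool.Agent.Lib.MP_c5d73d_lc.F.Defs

/-!
# Ultrapowers of `(P(ω), ⊆)` and their universality, in a universe

As in `Pool.Agent.Lib.MP_100a6c_lc.Defs`, all notions are written once, for an arbitrary
`Str B U`: a collection `U` with membership and equality relations with values in a complete Boolean
algebra `B`.  For `B = Prop` these are the usual notions in the structure `U`; for `VB B` they are
the Boolean values of the notions in the Boolean-valued universe `V^B`.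
-/

universe u v w

open scoped symmDiff

namespace Pool.Agent.Lib.MP_6b029b_lc.H57

open Pool.Agent.Lib.MP_100a6c_lc Pool.Agent.Lib.MP_c5d73d_lc.F

variable {B : Type v} {U : Type w} [CompleteBooleanAlgebra B] (S : Str B U)

/-- `(X, r)` is a partially ordered set; `(p, q) ∈ r` is read `p ≤ q`. -/
def isPoset (X r : U) : B :=
  (⨅ p, S.mem p X ⇨ S.rel r p p) ⊓
  (⨅ p, ⨅ q, S.mem p X ⊓ S.mem q X ⊓ S.rel r p q ⊓ S.rel r q p ⇨ S.eq p q) ⊓
  ⨅ p, ⨅ q, ⨅ s, S.mem p X ⊓ S.mem q X ⊓ S.mem s X ⊓ S.rel r p q ⊓ S.rel r q s ⇨ S.rel r p s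

/-- `{n ∈ w : s(n) = t(n)} ∈ u`. -/
def eqU (w u s t : U) : B :=
  ⨆ e, S.mem e u ⊓ ⨅ n, S.mem n e ⇔ (S.mem n w ⊓ ⨆ y, S.rel s n y ⊓ S.rel t n y)

/-- `{n ∈ w : s(n) ⊆ t(n)} ∈ u`. -/
def leU (w u s t : U) : B :=
  ⨆ e, S.mem e u ⊓
    ⨅ n, S.mem n e ⇔ (S.mem n w ⊓ ⨆ y, ⨆ z, S.rel s n y ⊓ S.rel t n z ⊓ S.sub y z)

/-- `k` is the class of the sequence `s`: the set of all functions `t` from `w` to `c` which agree
with `s` on a set in `u`. -/
def isCls (w c u s k : U) : B := ⨅ t, S.mem t k ⇔ (S.isFun t w c ⊓ eqU S w u s t)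

/-- `W` is (the underlying set of) the ultrapower: the set of the classes of all functions from
`w` to `c`. -/
def isUpw (w c u W : U) : B := ⨅ k, S.mem k W ⇔ ⨆ s, S.isFun s w c ⊓ isCls S w c u s k

/-- The order of the ultrapower. -/
def leW (w u k l : U) : B := ⨆ s, ⨆ t, S.mem s k ⊓ S.mem t l ⊓ leU S w u s t

/-- `F` is an order-embedding of `(X, r)` into `W`: a function from `X` to `W` such that, for
`p, q ∈ X`, `(p, q) ∈ r` if and only if `F(p) ≤ F(q)` in the order of the ultrapower. -/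
def isEmb (w u W X r F : U) : B :=
  S.isFun F X W ⊓
    ⨅ p, ⨅ q, ⨅ k, ⨅ l, S.mem p X ⊓ S.mem q X ⊓ S.rel F p k ⊓ S.rel F q l ⇨
      (S.rel r p q ⇔ leW S w u k l)

/-- The ultrapower of `(c, ⊆)` by `u` is universal for partially ordered sets of the cardinality
of `c`. -/
def isUniv (w c u : U) : B :=
  ⨅ W, ⨅ X, ⨅ r, isUpw S w c u W ⊓ isPoset S X r ⊓ (S.leCard X c ⊓ S.leCard c X) ⇨
    ⨆ F, isEmb S w u W X r F

/-- The statement of the problem: for `w = ω`, `c = P(ω)` and every nonprincipal ultrafilter `u` on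
`ω`, the ultrapower of `(P(ω), ⊆)` by `u` is universal for partially ordered sets of cardinality
`2^ω`. -/
def Universality : B :=
  ⨅ w, ⨅ c, ⨅ u, isOm S w ⊓ isPow S c w ⊓ isNPU S w u ⇨ isUniv S w c u

end Pool.Agent.Lib.MP_6b029b_lc.H57
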