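import Pool.Agent.Lib.MP_6b029b_lc.H57.Transfer
import Pool.Agent.Lib.MP_6b029b_lc.H57.Boolean
import Pool.Agent.Lib.MP_100a6c_lc.H1.RO

/-!
# A model of ZFC in which the universality statement fails
-/

universe u v w

open scoped symmDiff
open Cardinal

namespace Pool.Agent.Lib.MP_6b029b_lc.H57

open Pool.Agent.Lib.MP_100a6c_lc Pool.Agent.Lib.MP_c5d73d_lc.F BName

section

variable {B : Type u} [CompleteBooleanAlgebra B] {G : Set B} [hG : Fact (IsUlt G)]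

theorem exists_rep_fin {n : ℕ} (v' : Fin n → Ml G) :
    ∃ v : Fin n → BName B, Ctx.pi G v = v' := by
  choose v hv using fun i => Quot.exists_rep (v' i)
  exact ⟨v, funext hv⟩

theorem separation_QS (h : separation (VB B) = ⊤) : separation (QS G) := by
  unfold separation at *
  rw [iInf_Prop_eq]; intro n
  rw [iInf_Prop_eq]; intro φ
  rw [iInf_Prop_eq]; intro v'
  rw [iInf_Prop_eq]; intro x'
  obtain ⟨v, rfl⟩ := exists_rep_fin v'
  obtain ⟨x, rfl⟩ := Quot.exists_rep x'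
  have h1 : (⨆ y, ⨅ z, (VB B).mem z y ⇔ ((VB B).mem z x ⊓ val (VB B) φ (Fin.cons z v))) = ⊤ :=
    top_le_iff.1 (h ▸ iInf_le_of_le n (iInf_le_of_le φ (iInf_le_of_le v (iInf_le _ x))))
  have ht : Tf G (V := (Fin n → BName B) × BName B)
      (fun p => ⨆ y, ⨅ z, (VB B).mem z y ⇔
        ((VB B).mem z p.2 ⊓ val (VB B) φ (Fin.cons z p.1)))
      (fun p => ⨆ y, ⨅ z, (QS G).mem z y ⇔
        ((QS G).mem z p.2 ⊓ val (QS G) φ (Fin.cons z p.1))) := by
    repeat' first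
    | exact Mor.id
    | refine Mor.snd ?_
    | refine Mor.fst ?_
    | refine Mor.cons ?_ ?_
    | refine Tf.mem ?_ ?_
    | refine Tf.eq ?_ ?_
    | refine Tf.comp (tf_val φ) ?_
    | refine Tf.inf ?_ ?_
    | refine Tf.bihimp ?_ ?_
    | refine Tf.himp ?_ ?_
    | refine Tf.iInf ?_
    | refine Tf.iSup ?_
  exact (ht.tr (v, x)).1 (h1 ▸ hG.out.top)

theorem replacement_QS (h : replacement (VB B) = ⊤) : replacement (QS G) := by
  unfold replacement at *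
  rw [iInf_Prop_eq]; intro n
  rw [iInf_Prop_eq]; intro φ
  rw [iInf_Prop_eq]; intro v'
  rw [iInf_Prop_eq]; intro x'
  obtain ⟨v, rfl⟩ := exists_rep_fin v'
  obtain ⟨x, rfl⟩ := Quot.exists_rep x'
  have h1 : ((⨅ s, (VB B).mem s x ⇨ ⨆ t, ⨅ z,
      val (VB B) φ (Fin.cons z (Fin.cons s v)) ⇔ (VB B).eq z t) ⇨
      ⨆ y, ⨅ z, (VB B).mem z y ⇔ ⨆ s, (VB B).mem s x ⊓
        val (VB B) φ (Fin.cons z (Fin.cons s v))) = ⊤ :=
    top_le_iff.1 (h ▸ iInf_le_of_le n (iInf_le_of_le φ (iInf_le_of_le v (iInf_le _ x))))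
  have ht : Tf G (V := (Fin n → BName B) × BName B)
      (fun p => (⨅ s, (VB B).mem s p.2 ⇨ ⨆ t, ⨅ z,
      val (VB B) φ (Fin.cons z (Fin.cons s p.1)) ⇔ (VB B).eq z t) ⇨
      ⨆ y, ⨅ z, (VB B).mem z y ⇔ ⨆ s, (VB B).mem s p.2 ⊓
        val (VB B) φ (Fin.cons z (Fin.cons s p.1)))
      (fun p => (⨅ s, (QS G).mem s p.2 ⇨ ⨆ t, ⨅ z,
      val (QS G) φ (Fin.cons z (Fin.cons s p.1)) ⇔ (QS G).eq z t) ⇨
      ⨆ y, ⨅ z, (QS G).mem z y ⇔ ⨆ s, (QS G).mem s p.2 ⊓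
        val (QS G) φ (Fin.cons z (Fin.cons s p.1))) := by
    repeat' first
    | exact Mor.id
    | refine Mor.snd ?_
    | refine Mor.fst ?_
    | refine Mor.cons ?_ ?_
    | refine Tf.mem ?_ ?_
    | refine Tf.eq ?_ ?_
    | refine Tf.comp (tf_val φ) ?_
    | refine Tf.inf ?_ ?_
    | refine Tf.bihimp ?_ ?_
    | refine Tf.himp ?_ ?_
    | refine Tf.iInf ?_
    | refine Tf.iSup ?_
  exact (ht.tr (v, x)).1 (h1 ▸ hG.out.top)

/-- ZFC passes to the quotient. -/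
theorem zfc_QS (h : ZFC (VB B) = ⊤) : ZFC (QS G) := by
  unfold ZFC at h ⊢
  rw [inf_eq_top_iff, inf_eq_top_iff] at h
  obtain ⟨⟨h1, h2⟩, h3⟩ := h
  exact ⟨⟨((tf_zfcBase (G := G)).tr PUnit.unit).1 (h1 ▸ hG.out.top), separation_QS h2⟩,
    replacement_QS h3⟩

end

/-- There is a model of ZFC in which the universality statement fails. -/
theorem final : ∃ (M : Type (u + 1)) (E : M → M → Prop),
    ZFC (Str.mk E Eq) ∧ ¬ Universality (Str.mk E Eq) := by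
  obtain ⟨B, inst, hne, hZ, hU⟩ := boolean_model.{u}
  obtain ⟨G, hG, -⟩ := H1.exists_ult (B := B) {⊤} rfl (fun h => hne h)
    (fun a ha b hb => by
      rw [Set.mem_singleton_iff] at ha hb ⊢
      rw [ha, hb, inf_top_eq])
    (fun a ha b hab => by
      rw [Set.mem_singleton_iff] at ha ⊢
      rw [ha] at hab
      exact top_le_iff.1 hab)
  have : Fact (IsUlt G) := ⟨hG⟩
  refine ⟨Ml G, MlE G, zfc_QS hZ, fun h => hG.bot ?_⟩
  have h1 := ((tf_universality (G := G)).tr PUnit.unit).2 h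
  rwa [hU] at h1

end Pool.Agent.Lib.MP_6b029b_lc.H57
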