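import Pool.Agent.Lib.MP_c5d73d_lc.F.H62.Roapi

/-!
# Dense maps of a preorder into a complete Boolean algebra; the embedding for a product `C × E`
-/

universe u v w

open scoped symmDiff

namespace Pool.Agent.Lib.MP_6b029b_lc.H57

/-- `d : P → B` is a dense map of the preorder `P` into the complete Boolean algebra `B`. -/
structure Dns {P : Type v} {B : Type w} [Preorder P] [CompleteBooleanAlgebra B] (d : P → B) :
    Prop where
  mono : ∀ {p q : P}, p ≤ q → d p ≤ d q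
  ne_bot : ∀ p, d p ≠ ⊥
  dense : ∀ b, b ≠ ⊥ → ∃ p, d p ≤ b
  comp : ∀ {p q : P}, d q ≤ d p → ∃ r, r ≤ q ∧ r ≤ p

namespace Dns

variable {P : Type v} {B : Type w} [Preorder P] [CompleteBooleanAlgebra B] {d : P → B}

/-- Below a condition, a nonzero meet is met by a condition. -/
theorem exists_ext (hd : Dns d) {p : P} {b : B} (h : d p ⊓ b ≠ ⊥) : ∃ q ≤ p, d q ≤ b := by
  obtain ⟨q, hq⟩ := hd.dense _ h
  obtain ⟨r, hr, hr'⟩ := hd.comp (hq.trans inf_le_left)
  exact ⟨r, hr', (hd.mono hr).trans (hq.trans inf_le_right)⟩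

theorem not_both (hd : Dns d) {p : P} {b : B} (h : d p ≤ b) (h' : d p ≤ bᶜ) : False := by
  refine hd.ne_bot p (le_bot_iff.1 ?_)
  rw [← inf_compl_self b]
  exact le_inf h h'

theorem fo_compl (hd : Dns d) (p : P) (b : B) : d p ≤ bᶜ ↔ ∀ q ≤ p, ¬ d q ≤ b := by
  constructor
  · intro h q hq hb
    exact hd.not_both hb ((hd.mono hq).trans h)
  · intro h
    rw [le_compl_iff_disjoint_right, disjoint_iff]
    by_contra hne
    obtain ⟨q, hq, hqb⟩ := hd.exists_ext hne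
    exact h q hq hqb

theorem fo_dense (hd : Dns d) (p : P) (b : B) : d p ≤ b ↔ ∀ q ≤ p, ∃ r ≤ q, d r ≤ b := by
  constructor
  · intro h q hq
    exact ⟨q, le_rfl, (hd.mono hq).trans h⟩
  · intro h
    have h1 : d p ⊓ bᶜ = ⊥ := by
      by_contra hne
      obtain ⟨q, hq, hqb⟩ := hd.exists_ext hne
      obtain ⟨r, hr, hrb⟩ := h q hq
      exact hd.not_both hrb ((hd.mono hr).trans hqb)
    rw [← compl_compl b, le_compl_iff_disjoint_right, disjoint_iff, h1]

theorem fo_iSup (hd : Dns d) {ι : Sort*} (p : P) (b : ι → B) :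
    d p ≤ ⨆ i, b i ↔ ∀ q ≤ p, ∃ r ≤ q, ∃ i, d r ≤ b i := by
  constructor
  · intro h q hq
    by_contra hcon
    push Not at hcon
    refine hd.ne_bot q ?_
    have h1 : d q = d q ⊓ ⨆ i, b i := by
      rw [inf_eq_left.2 ((hd.mono hq).trans h)]
    rw [h1, inf_iSup_eq, iSup_eq_bot]
    intro i
    by_contra hne
    obtain ⟨r, hr, hrb⟩ := hd.exists_ext hne
    exact hcon r hr i hrb
  · intro h
    rw [hd.fo_dense]
    intro q hq
    obtain ⟨r, hr, i, hri⟩ := h q hq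
    exact ⟨r, hr, hri.trans (le_iSup b i)⟩

theorem fo_himp (hd : Dns d) (p : P) (a b : B) : d p ≤ a ⇨ b ↔ ∀ q ≤ p, d q ≤ a → d q ≤ b := by
  rw [le_himp_iff]
  constructor
  · intro h q hq hqa
    exact (le_inf (hd.mono hq) hqa).trans h
  · intro h
    by_contra hne
    have h1 : d p ⊓ (a ⊓ bᶜ) ≠ ⊥ := by
      intro h0
      refine hne ?_
      rw [← compl_compl b, le_compl_iff_disjoint_right, disjoint_iff, inf_assoc, h0]
    obtain ⟨q, hq, hqb⟩ := hd.exists_ext h1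
    exact hd.not_both (h q hq (hqb.trans inf_le_left)) (hqb.trans inf_le_right)

theorem le_of_fo (hd : Dns d) {a b : B} (h : ∀ p, d p ≤ a → d p ≤ b) : a ≤ b := by
  by_contra hne
  have h1 : a ⊓ bᶜ ≠ ⊥ := by
    intro h0
    refine hne ?_
    rw [← compl_compl b, le_compl_iff_disjoint_right, disjoint_iff, h0]
  obtain ⟨q, hq⟩ := hd.dense _ h1
  exact hd.not_both (h q (hq.trans inf_le_left)) (hq.trans inf_le_right)

theorem ext_fo (hd : Dns d) {a b : B} (h : ∀ p, d p ≤ a ↔ d p ≤ b) : a = b :=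
  le_antisymm (hd.le_of_fo fun p hp => (h p).1 hp) (hd.le_of_fo fun p hp => (h p).2 hp)

theorem decide (hd : Dns d) (p : P) (b : B) : ∃ q ≤ p, d q ≤ b ∨ d q ≤ bᶜ := by
  by_cases h : ∃ q ≤ p, d q ≤ b
  · obtain ⟨q, hq, hb⟩ := h
    exact ⟨q, hq, Or.inl hb⟩
  · push Not at h
    exact ⟨p, le_rfl, Or.inr ((hd.fo_compl p b).2 h)⟩

theorem eq_top (hd : Dns d) {b : B} (h : ∀ p, ∃ q ≤ p, d q ≤ b) : b = ⊤ := by
  rw [eq_top_iff]
  refine hd.le_of_fo fun p _ => ?_
  rw [hd.fo_dense]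
  exact fun q _ => h q

end Dns

/-! ## The embedding -/

section

variable {C : Type v} {E : Type v} [Preorder C] [Preorder E] {A B : Type w}
  [CompleteBooleanAlgebra A] [CompleteBooleanAlgebra B]

/-- The embedding of the completion `A` of `C` into the completion `B` of `C × E`. -/
noncomputable def em (dA : C → A) (dB : C × E → B) (b : A) : B :=
  ⨆ q : {q : C × E // dA q.1 ≤ b}, dB q.1

variable {dA : C → A} {dB : C × E → B}

theorem fo_em (hA : Dns dA) (hB : Dns dB) (q : C × E) (b : A) :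
    dB q ≤ em dA dB b ↔ dA q.1 ≤ b := by
  constructor
  · intro h
    rw [hA.fo_dense]
    intro c hc
    obtain ⟨r, hr, i, hri⟩ := (hB.fo_iSup q _).1 h (c, q.2) ⟨hc, le_rfl⟩
    obtain ⟨r', hr', hr''⟩ := hB.comp hri
    exact ⟨r'.1, hr'.1.trans hr.1, (hA.mono hr''.1).trans i.2⟩
  · intro h
    exact le_iSup (fun q : {q : C × E // dA q.1 ≤ b} => dB q.1) ⟨q, h⟩

theorem em_iInf (hA : Dns dA) (hB : Dns dB) {ι : Sort*} (b : ι → A) :
    em dA dB (⨅ i, b i) = ⨅ i, em dA dB (b i) :=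
  hB.ext_fo fun q => by
    rw [fo_em hA hB, le_iInf_iff, le_iInf_iff]
    exact forall_congr' fun i => (fo_em hA hB q (b i)).symm

theorem em_inf (hA : Dns dA) (hB : Dns dB) (a b : A) :
    em dA dB (a ⊓ b) = em dA dB a ⊓ em dA dB b :=
  hB.ext_fo fun q => by rw [fo_em hA hB, le_inf_iff, le_inf_iff, fo_em hA hB, fo_em hA hB]

theorem em_himp (hA : Dns dA) (hB : Dns dB) (a b : A) :
    em dA dB (a ⇨ b) = em dA dB a ⇨ em dA dB b :=
  hB.ext_fo fun q => by
    rw [fo_em hA hB, hA.fo_himp, hB.fo_himp]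
    constructor
    · intro h r hr hra
      exact (fo_em hA hB r b).2 (h r.1 hr.1 ((fo_em hA hB r a).1 hra))
    · intro h r hr hra
      have h1 := h (r, q.2) ⟨hr, le_rfl⟩ ((fo_em hA hB _ a).2 hra)
      exact (fo_em hA hB _ b).1 h1

theorem em_compl (hA : Dns dA) (hB : Dns dB) (a : A) : em dA dB aᶜ = (em dA dB a)ᶜ :=
  hB.ext_fo fun q => by
    rw [fo_em hA hB, hA.fo_compl, hB.fo_compl]
    constructor
    · intro h r hr hra
      exact h r.1 hr.1 ((fo_em hA hB r a).1 hra)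
    · intro h r hr hra
      exact h (r, q.2) ⟨hr, le_rfl⟩ ((fo_em hA hB _ a).2 hra)

theorem em_iSup (hA : Dns dA) (hB : Dns dB) {ι : Sort*} (b : ι → A) :
    em dA dB (⨆ i, b i) = ⨆ i, em dA dB (b i) := by
  have h : (⨆ i, b i) = (⨅ i, (b i)ᶜ)ᶜ := by rw [compl_iInf]; simp only [compl_compl]
  rw [h, em_compl hA hB, em_iInf hA hB, compl_iInf]
  simp only [em_compl hA hB, compl_compl]

theorem em_bihimp (hA : Dns dA) (hB : Dns dB) (a b : A) :
    em dA dB (a ⇔ b) = em dA dB a ⇔ em dA dB b := by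
  rw [bihimp_def, bihimp_def, em_inf hA hB, em_himp hA hB, em_himp hA hB]

theorem em_mono (hA : Dns dA) (hB : Dns dB) {a b : A} (h : a ≤ b) :
    em dA dB a ≤ em dA dB b :=
  hB.le_of_fo fun q hq => by rw [fo_em hA hB] at hq ⊢; exact hq.trans h

end

/-! ## The regular open algebra -/

open Pool.Agent.Lib.MP_100a6c_lc Pool.Agent.Lib.MP_c5d73d_lc.F
open Pool.Agent.Lib.MP_c5d73d_lc.F.H62

theorem dns_pr (P : Type u) [Preorder P] : Dns (pr : P → H1.RO P) where
  mono h := pr_mono h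
  ne_bot := pr_ne_bot
  dense b hb := by
    obtain ⟨p, hp⟩ := H1.exists_mem_of_ne_bot hb
    exact ⟨p, (pr_le_iff p b).2 hp⟩
  comp {p q} h := by
    have h1 := (pr_le_iff q (pr p)).1 h
    rw [mem_pr_iff] at h1
    obtain ⟨r, hr, hr'⟩ := h1 q le_rfl
    exact ⟨r, hr, hr'⟩

end Pool.Agent.Lib.MP_6b029b_lc.H57
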