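import Pool.Agent.Lib.MP_6b029b_lc.H57.Defs
import Pool.Agent.Lib.MP_100a6c_lc.Base
import Pool.Agent.Lib.MP_100a6c_lc.IfaceV

/-!
# Two-valued quotients of `V^B` by an ultrafilter: the transfer theorem
-/

universe u v w

open scoped symmDiff

namespace Pool.Agent.Lib.MP_6b029b_lc.H57

open Pool.Agent.Lib.MP_100a6c_lc Pool.Agent.Lib.MP_c5d73d_lc.F BName

variable {B : Type u} [CompleteBooleanAlgebra B]

/-! ## Ultrafilters -/

section

variable {G : Set B}

theorem ult_compl (hG : IsUlt G) (a : B) : aᶜ ∈ G ↔ a ∉ G := by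
  constructor
  · intro h h'
    refine hG.bot ?_
    rw [← inf_compl_self a]
    exact hG.inf a h' _ h
  · intro h
    exact (hG.compl a).resolve_left h

theorem ult_inf (hG : IsUlt G) (a b : B) : a ⊓ b ∈ G ↔ a ∈ G ∧ b ∈ G :=
  ⟨fun h => ⟨hG.up _ h _ inf_le_left, hG.up _ h _ inf_le_right⟩, fun h => hG.inf a h.1 b h.2⟩

theorem ult_sup (hG : IsUlt G) (a b : B) : a ⊔ b ∈ G ↔ a ∈ G ∨ b ∈ G := by
  have h : a ⊔ b = (aᶜ ⊓ bᶜ)ᶜ := by rw [compl_inf, compl_compl, compl_compl]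
  rw [h, ult_compl hG, ult_inf hG, ult_compl hG, ult_compl hG]
  tauto

theorem ult_himp (hG : IsUlt G) (a b : B) : a ⇨ b ∈ G ↔ (a ∈ G → b ∈ G) := by
  rw [himp_eq, ult_sup hG, ult_compl hG]
  tauto

end

/-! ## The quotient -/

/-- The underlying class of the two-valued model. -/
def Ml (G : Set B) : Type (u + 1) := Quot fun x y : BName B => beq x y ∈ G

/-- The membership relation of the two-valued model. -/
def MlE (G : Set B) (m m' : Ml G) : Prop :=
  ∃ x y : BName B, Quot.mk _ x = m ∧ Quot.mk _ y = m' ∧ bmem x y ∈ G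

/-- The two-valued model. -/
def QS (G : Set B) : Str Prop (Ml G) where
  mem := MlE G
  eq := Eq

theorem beq_equiv {G : Set B} (hG : IsUlt G) :
    Equivalence fun x y : BName B => beq x y ∈ G where
  refl x := by rw [beq_refl]; exact hG.top
  symm {x y} h := by rwa [beq_symm]
  trans {x y z} h h' := hG.up _ (hG.inf _ h _ h') _ (beq_trans x y z)

theorem mk_eq_iff {G : Set B} (hG : IsUlt G) (x y : BName B) :
    (Quot.mk _ x : Ml G) = Quot.mk _ y ↔ beq x y ∈ G :=
  (beq_equiv hG).quot_mk_eq_iff x y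

theorem mem_mk_iff {G : Set B} (hG : IsUlt G) (x y : BName B) :
    MlE G (Quot.mk _ x) (Quot.mk _ y) ↔ bmem x y ∈ G := by
  constructor
  · rintro ⟨x', y', hx, hy, h⟩
    have h1 := (mk_eq_iff hG x' x).1 hx
    have h2 := (mk_eq_iff hG y' y).1 hy
    have h3 : bmem x y' ∈ G := hG.up _ (hG.inf _ h1 _ h) _ (bmem_congr_left x' x y')
    exact hG.up _ (hG.inf _ h2 _ h3) _ (bmem_congr_right x y' y)
  · intro h
    exact ⟨x, y, rfl, rfl, h⟩

/-! ## Contexts -/

/-- `V` is a type of contexts on the Boolean-valued side, `V'` its quotient. -/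
class Ctx (G : Set B) (V : Type (u + 1)) (V' : outParam (Type (u + 1))) where
  eqv : V → V → B
  pi : V → V'
  symm : ∀ v w, eqv v w = eqv w v
  refl : ∀ v, eqv v v = ⊤

variable (G : Set B)

instance : Ctx G (BName B) (Ml G) where
  eqv := beq
  pi := Quot.mk _
  symm := beq_symm
  refl := beq_refl

instance {V V' W W' : Type (u + 1)} [Ctx G V V'] [Ctx G W W'] : Ctx G (V × W) (V' × W') where
  eqv p q := Ctx.eqv G p.1 q.1 ⊓ Ctx.eqv G p.2 q.2
  pi p := (Ctx.pi G p.1, Ctx.pi G p.2)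
  symm p q := by rw [Ctx.symm p.1, Ctx.symm p.2]
  refl p := by rw [Ctx.refl, Ctx.refl, inf_top_eq]

instance (n : ℕ) : Ctx G (Fin n → BName B) (Fin n → Ml G) where
  eqv v w := ⨅ i, beq (v i) (w i)
  pi v := fun i => Quot.mk _ (v i)
  symm v w := iInf_congr fun i => beq_symm _ _
  refl v := by simp only [beq_refl, iInf_top]

instance : Ctx G PUnit.{u + 2} PUnit.{u + 2} where
  eqv _ _ := ⊤
  pi v := v
  symm _ _ := rfl
  refl _ := rfl

variable {V V' W W' X X' : Type (u + 1)} [Ctx G V V'] [Ctx G W W'] [Ctx G X X']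

/-- Maps of contexts. -/
structure Mor (s : V → W) (s' : V' → W') : Prop where
  ext : ∀ v w, Ctx.eqv G v w ≤ Ctx.eqv G (s v) (s w)
  pi : ∀ v, Ctx.pi G (s v) = s' (Ctx.pi G v)

/-- `F` is extensional and its two-valued version is `F'`. -/
structure Tf (F : V → B) (F' : V' → Prop) : Prop where
  ext : ∀ v w, Ctx.eqv G v w ⊓ F v ≤ F w
  tr : ∀ v, F v ∈ G ↔ F' (Ctx.pi G v)

variable {G}

theorem Mor.id : Mor G (fun v : V => v) (fun v' : V' => v') := ⟨fun _ _ => le_rfl, fun _ => rfl⟩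

theorem Mor.fst {s : V → W × X} {s' : V' → W' × X'} (h : Mor G s s') :
    Mor G (fun v => (s v).1) (fun v' => (s' v').1) :=
  ⟨fun v w => (h.ext v w).trans inf_le_left, fun v => congrArg Prod.fst (h.pi v)⟩

theorem Mor.snd {s : V → W × X} {s' : V' → W' × X'} (h : Mor G s s') :
    Mor G (fun v => (s v).2) (fun v' => (s' v').2) :=
  ⟨fun v w => (h.ext v w).trans inf_le_right, fun v => congrArg Prod.snd (h.pi v)⟩

theorem Mor.comp {s : W → X} {s' : W' → X'} (h : Mor G s s') {r : V → W} {r' : V' → W'}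
    (hr : Mor G r r') : Mor G (fun v => s (r v)) (fun v' => s' (r' v')) :=
  ⟨fun v w => (hr.ext v w).trans (h.ext _ _), fun v => by rw [h.pi, hr.pi]⟩

theorem Mor.proj (n : ℕ) (i : Fin n) :
    Mor G (fun v : Fin n → BName B => v i) (fun v' : Fin n → Ml G => v' i) :=
  ⟨fun v w => iInf_le (fun i => beq (v i) (w i)) i, fun _ => rfl⟩

theorem Mor.cons {n : ℕ} {s : V → BName B} {s' : V' → Ml G} (h : Mor G s s')
    {r : V → Fin n → BName B} {r' : V' → Fin n → Ml G} (hr : Mor G r r') :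
    Mor G (W := Fin (n + 1) → BName B) (fun v => Fin.cons (s v) (r v))
      (fun v' => Fin.cons (s' v') (r' v')) := by
  refine ⟨fun v w => le_iInf fun i => ?_, fun v => funext fun i => ?_⟩
  · refine Fin.cases ?_ (fun j => ?_) i
    · exact h.ext v w
    · exact (hr.ext v w).trans (iInf_le (fun j => beq (r v j) (r w j)) j)
  · refine Fin.cases ?_ (fun j => ?_) i
    · exact h.pi v
    · exact congrFun (hr.pi v) j

theorem Tf.comp {F : W → B} {F' : W' → Prop} (h : Tf G F F') {r : V → W} {r' : V' → W'}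
    (hr : Mor G r r') : Tf G (fun v => F (r v)) (fun v' => F' (r' v')) :=
  ⟨fun v w => (inf_le_inf_right _ (hr.ext v w)).trans (h.ext _ _), fun v => by rw [h.tr, hr.pi]⟩

variable [hG : Fact (IsUlt G)]

theorem Tf.mem {s t : V → BName B} {s' t' : V' → Ml G} (hs : Mor G s s') (ht : Mor G t t') :
    Tf G (fun v => (VB B).mem (s v) (t v)) (fun v' => (QS G).mem (s' v') (t' v')) := by
  refine ⟨fun v w => ?_, fun v => ?_⟩
  · have h1 := hs.ext v w
    have h2 := ht.ext v w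
    exact (ext_mem_left (t w)).of_le (inf_le_left.trans h1)
      ((ext_mem_right (s v)).of_le (inf_le_left.trans h2) inf_le_right)
  · change bmem (s v) (t v) ∈ G ↔ MlE G _ _
    rw [← hs.pi, ← ht.pi]
    exact (mem_mk_iff hG.out _ _).symm

theorem Tf.eq {s t : V → BName B} {s' t' : V' → Ml G} (hs : Mor G s s') (ht : Mor G t t') :
    Tf G (fun v => (VB B).eq (s v) (t v)) (fun v' => (QS G).eq (s' v') (t' v')) := by
  refine ⟨fun v w => ?_, fun v => ?_⟩
  · have h1 := hs.ext v w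
    have h2 := ht.ext v w
    exact (ext_eq_left (t w)).of_le (inf_le_left.trans h1)
      ((ext_eq_right (s v)).of_le (inf_le_left.trans h2) inf_le_right)
  · change beq (s v) (t v) ∈ G ↔ s' _ = t' _
    rw [← hs.pi, ← ht.pi]
    exact (mk_eq_iff hG.out _ _).symm

theorem Tf.inf {F H : V → B} {F' H' : V' → Prop} (hF : Tf G F F') (hH : Tf G H H') :
    Tf G (fun v => F v ⊓ H v) (fun v' => F' v' ⊓ H' v') := by
  refine ⟨fun v w => le_inf ?_ ?_, fun v => ?_⟩
  · exact (inf_le_inf_left _ inf_le_left).trans (hF.ext v w)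
  · exact (inf_le_inf_left _ inf_le_right).trans (hH.ext v w)
  · rw [ult_inf hG.out, hF.tr, hH.tr]
    exact Iff.rfl

theorem Tf.sup {F H : V → B} {F' H' : V' → Prop} (hF : Tf G F F') (hH : Tf G H H') :
    Tf G (fun v => F v ⊔ H v) (fun v' => F' v' ⊔ H' v') := by
  refine ⟨fun v w => ?_, fun v => ?_⟩
  · rw [inf_sup_left]
    exact sup_le_sup (hF.ext v w) (hH.ext v w)
  · rw [ult_sup hG.out, hF.tr, hH.tr]
    exact Iff.rfl

theorem Tf.himp {F H : V → B} {F' H' : V' → Prop} (hF : Tf G F F') (hH : Tf G H H') :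
    Tf G (fun v => F v ⇨ H v) (fun v' => F' v' ⇨ H' v') := by
  refine ⟨fun v w => ?_, fun v => ?_⟩
  · rw [le_himp_iff]
    have h1 : Ctx.eqv G v w ⊓ (F v ⇨ H v) ⊓ F w ≤ F v := by
      refine le_trans (le_inf ?_ inf_le_right) (hF.ext w v)
      rw [Ctx.symm w v]
      exact inf_le_left.trans inf_le_left
    have h2 : Ctx.eqv G v w ⊓ (F v ⇨ H v) ⊓ F w ≤ H v :=
      (le_inf (inf_le_left.trans inf_le_right) h1).trans himp_inf_le
    exact (le_inf (inf_le_left.trans inf_le_left) h2).trans (hH.ext v w)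
  · rw [ult_himp hG.out, hF.tr, hH.tr]
    exact (himp_iff_imp _ _).symm

theorem Tf.bot : Tf G (fun _ : V => (⊥ : B)) (fun _ : V' => (⊥ : Prop)) :=
  ⟨fun _ _ => inf_le_right, fun _ => ⟨fun h => (hG.out.bot h).elim, fun h => h.elim⟩⟩

theorem Tf.compl {F : V → B} {F' : V' → Prop} (hF : Tf G F F') :
    Tf G (fun v => (F v)ᶜ) (fun v' => (F' v')ᶜ) := by
  have h := hF.himp (Tf.bot (G := G) (V := V))
  simpa only [himp_bot] using h

theorem Tf.bihimp {F H : V → B} {F' H' : V' → Prop} (hF : Tf G F F') (hH : Tf G H H') :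
    Tf G (fun v => F v ⇔ H v) (fun v' => F' v' ⇔ H' v') :=
  (hH.himp hF).inf (hF.himp hH)

theorem Tf.ext_snd {φ : V → BName B → B} {φ' : V' → Ml G → Prop}
    (h : Tf G (fun p : V × BName B => φ p.1 p.2) (fun p : V' × Ml G => φ' p.1 p.2)) (v : V) :
    Ext (φ v) := fun x y => by
  have h1 := h.ext (v, x) (v, y)
  change (Ctx.eqv G v v ⊓ beq x y) ⊓ φ v x ≤ φ v y at h1
  rwa [Ctx.refl, top_inf_eq] at h1

theorem Tf.ext_fst {φ : V → BName B → B} {φ' : V' → Ml G → Prop}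
    (h : Tf G (fun p : V × BName B => φ p.1 p.2) (fun p : V' × Ml G => φ' p.1 p.2)) (v w : V)
    (x : BName B) : Ctx.eqv G v w ⊓ φ v x ≤ φ w x := by
  have h1 := h.ext (v, x) (w, x)
  change (Ctx.eqv G v w ⊓ beq x x) ⊓ φ v x ≤ φ w x at h1
  rwa [beq_refl, inf_top_eq] at h1

theorem Tf.iInf {φ : V → BName B → B} {φ' : V' → Ml G → Prop}
    (h : Tf G (fun p : V × BName B => φ p.1 p.2) (fun p : V' × Ml G => φ' p.1 p.2)) :
    Tf G (fun v => ⨅ x, φ v x) (fun v' => ⨅ x', φ' v' x') := by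
  refine ⟨fun v w => le_iInf fun x => (inf_le_inf_left _ (iInf_le _ x)).trans (h.ext_fst v w x),
    fun v => ?_⟩
  obtain ⟨τ, hτ⟩ := exists_max (h.ext_snd v).compl
  have h1 : ⨅ x, φ v x = φ v τ := by
    rw [← compl_inj_iff, compl_iInf, hτ]
  rw [iInf_Prop_eq]
  constructor
  · intro h2 m
    obtain ⟨x, rfl⟩ := Quot.exists_rep m
    exact (h.tr (v, x)).1 (hG.out.up _ h2 _ (iInf_le _ x))
  · intro h2
    rw [h1]
    exact (h.tr (v, τ)).2 (h2 _)

theorem Tf.iSup {φ : V → BName B → B} {φ' : V' → Ml G → Prop}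
    (h : Tf G (fun p : V × BName B => φ p.1 p.2) (fun p : V' × Ml G => φ' p.1 p.2)) :
    Tf G (fun v => ⨆ x, φ v x) (fun v' => ⨆ x', φ' v' x') := by
  refine ⟨fun v w => ?_, fun v => ?_⟩
  · rw [inf_iSup_eq]
    exact iSup_mono fun x => h.ext_fst v w x
  obtain ⟨τ, hτ⟩ := exists_max (h.ext_snd v)
  rw [iSup_Prop_eq]
  constructor
  · intro h2
    rw [hτ] at h2
    exact ⟨_, (h.tr (v, τ)).1 h2⟩
  · rintro ⟨m, hm⟩
    obtain ⟨x, rfl⟩ := Quot.exists_rep m
    exact hG.out.up _ ((h.tr (v, x)).2 hm) _ (le_iSup _ x)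

/-- Transfer for formulas. -/
theorem tf_val {n : ℕ} (φ : Fml n) :
    Tf G (fun v : Fin n → BName B => val (VB B) φ v) (fun v' => val (QS G) φ v') := by
  induction φ with
  | mem i j => exact Tf.mem (Mor.proj _ i) (Mor.proj _ j)
  | eq i j => exact Tf.eq (Mor.proj _ i) (Mor.proj _ j)
  | fls => exact Tf.bot
  | imp φ ψ ih1 ih2 => exact ih1.himp ih2
  | all φ ih => exact Tf.iInf (ih.comp (Mor.cons Mor.id.snd Mor.id.fst))

end Pool.Agent.Lib.MP_6b029b_lc.H57
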