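import Pool.Agent.Lib.MP_6b029b_lc.H57.Defs
import Pool.Agent.Lib.MP_c5d73d_lc.F.H36.Ultra

/-!
# Functions from `ω` to `P(ω)` and the ultrapower in `V^B`
-/

universe u v w

open scoped symmDiff

namespace Pool.Agent.Lib.MP_6b029b_lc.H57

open Pool.Agent.Lib.MP_100a6c_lc Pool.Agent.Lib.MP_c5d73d_lc.F BName
open Pool.Agent.Lib.MP_c5d73d_lc.F.H36
open Pool.Agent.Lib.MP_100a6c_lc.H36 (nn om mem_check_om nn_inj)

variable {B : Type u} [CompleteBooleanAlgebra B]

/-! ## Extensionality -/

theorem ext_isFun_fst' (a b : BName B) : Ext (fun s => (VB B).isFun s a b) := ext_isFun_fst a b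

theorem ext_eqU_right (w u s : BName B) : Ext (fun t => eqU (VB B) w u s t) :=
  Ext.iSup fun e => (Ext.const _).inf (Ext.iInf fun n => (Ext.const _).bihimp
    ((Ext.const _).inf (Ext.iSup fun y => (Ext.const _).inf (ext_rel_fst n y))))

theorem ext_eqU_left (w u t : BName B) : Ext (fun s => eqU (VB B) w u s t) :=
  Ext.iSup fun e => (Ext.const _).inf (Ext.iInf fun n => (Ext.const _).bihimp
    ((Ext.const _).inf (Ext.iSup fun y => (ext_rel_fst n y).inf (Ext.const _))))

theorem ext_leU_right (w u s : BName B) : Ext (fun t => leU (VB B) w u s t) :=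
  Ext.iSup fun e => (Ext.const _).inf (Ext.iInf fun n => (Ext.const _).bihimp
    ((Ext.const _).inf (Ext.iSup fun y => Ext.iSup fun z =>
      ((Ext.const _).inf (ext_rel_fst n z)).inf (Ext.const _))))

theorem ext_leU_left (w u t : BName B) : Ext (fun s => leU (VB B) w u s t) :=
  Ext.iSup fun e => (Ext.const _).inf (Ext.iInf fun n => (Ext.const _).bihimp
    ((Ext.const _).inf (Ext.iSup fun y => Ext.iSup fun z =>
      ((ext_rel_fst n y).inf (Ext.const _)).inf (Ext.const _))))

theorem ext_isCls_s (w c u k : BName B) : Ext (fun s => isCls (VB B) w c u s k) :=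
  Ext.iInf fun t => (Ext.const _).bihimp ((Ext.const _).inf (ext_eqU_left w u t))

theorem ext_leW_left (w u l : BName B) : Ext (fun k => leW (VB B) w u k l) :=
  Ext.iSup fun s => Ext.iSup fun t => ((ext_mem_right s).inf (Ext.const _)).inf (Ext.const _)

theorem ext_leW_right (w u k : BName B) : Ext (fun l => leW (VB B) w u k l) :=
  Ext.iSup fun s => Ext.iSup fun t => ((Ext.const _).inf (ext_mem_right t)).inf (Ext.const _)

/-! ## Functions -/

/-- The name of the function `n ↦ a n`. -/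
noncomputable def fn (a : ℕ → Rl B) : BName B :=
  relFam (ι := ULift.{u} ℕ) (fun n => check (nn n.down)) (fun n => rn (a n.down)) fun _ => ⊤

theorem mem_fn (a : ℕ → Rl B) (z : BName B) :
    bmem z (fn a) = ⨆ n, beq z (opr (check (nn n)) (rn (a n))) := by
  change (⨆ n : ULift.{u} ℕ, ⊤ ⊓ beq z (opr (check (nn n.down)) (rn (a n.down)))) = _
  refine le_antisymm (iSup_le fun i => ?_) (iSup_le fun n => ?_)
  · rw [top_inf_eq]
    exact le_iSup (fun n => beq z (opr (check (nn n)) (rn (a n)))) i.down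
  · refine le_iSup_of_le ⟨n⟩ ?_
    rw [top_inf_eq]

theorem rel_fn (a : ℕ → Rl B) (z y : BName B) :
    (VB B).rel (fn a) z y = ⨆ n, beq z (check (nn n)) ⊓ beq y (rn (a n)) := by
  rw [rel_eq, mem_fn]
  exact iSup_congr fun n => by rw [beq_opr]

theorem rn_mem_Pw (a : Rl B) : bmem (rn a) Pw = ⊤ := by rw [mem_Pw, rn_sub_om]

theorem nn_mem_om' (n : ℕ) : bmem (check (nn n)) (check om : BName B) = ⊤ := by
  rw [mem_check_om]
  refine eq_top_iff.2 (le_iSup_of_le n ?_)
  rw [beq_refl]

theorem isFun_fn (a : ℕ → Rl B) : (VB B).isFun (fn a) (check om) Pw = ⊤ := by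
  rw [eq_top_iff]
  refine le_inf (le_inf ?_ ?_) ?_
  · refine le_iInf fun p => ?_
    rw [le_himp_iff, top_inf_eq, VB_mem, mem_fn]
    refine iSup_le fun n => le_iSup_of_le (check (nn n)) (le_iSup_of_le (rn (a n)) ?_)
    rw [VB_mem, VB_mem, nn_mem_om', rn_mem_Pw, isPair_eq, top_inf_eq, top_inf_eq]
  · refine le_iInf fun x => ?_
    rw [le_himp_iff, top_inf_eq, VB_mem, mem_check_om]
    refine iSup_le fun n => le_iSup_of_le (rn (a n)) ?_
    rw [rel_fn]
    refine le_iSup_of_le n ?_
    rw [beq_refl, inf_top_eq]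
  · refine le_iInf fun x => le_iInf fun y => le_iInf fun y' => ?_
    rw [le_himp_iff, top_inf_eq, rel_fn, rel_fn, iSup_inf_iSup]
    refine iSup_le fun ⟨n, m⟩ => ?_
    by_cases h : n = m
    · subst h
      exact (ext_eq_right y).of_le' (x := rn (a n)) (inf_le_right.trans inf_le_right)
        (inf_le_left.trans inf_le_right)
    · refine le_trans ?_ bot_le
      rw [← beq_check_of_ne (B := B) (fun h' => h (nn_inj h'))]
      exact (ext_eq_left (check (nn m))).of_le (x := x) (inf_le_left.trans inf_le_left)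
        (inf_le_right.trans inf_le_left)

theorem isFun_rel_le (s a b x y : BName B) :
    (VB B).isFun s a b ⊓ (VB B).rel s x y ≤ bmem x a ⊓ bmem y b := by
  have h1 : (VB B).isFun s a b ≤ ⨅ p, (VB B).mem p s ⇨ ⨆ x, ⨆ y, (VB B).mem x a ⊓ (VB B).mem y b ⊓
      (VB B).isPair p x y := inf_le_left.trans inf_le_left
  have h2 : (VB B).isFun s a b ⊓ (VB B).rel s x y ≤ ⨆ x', ⨆ y', bmem x' a ⊓ bmem y' b ⊓
      beq (opr x y) (opr x' y') := by
    have := iInf_himp_apply h1 (opr x y) (Δ := (VB B).isFun s a b ⊓ (VB B).rel s x y) inf_le_left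
      (by rw [rel_eq]; exact inf_le_right)
    simpa only [isPair_eq, VB_mem] using this
  refine h2.trans (iSup_le fun x' => iSup_le fun y' => ?_)
  rw [beq_opr]
  refine le_inf ?_ ?_
  · exact (ext_mem_left a).of_le' (x := x') (inf_le_right.trans inf_le_left)
      (inf_le_left.trans inf_le_left)
  · exact (ext_mem_left b).of_le' (x := y') (inf_le_right.trans inf_le_right)
      (inf_le_left.trans inf_le_right)

theorem isFun_unique (s a b x y y' : BName B) {Γ : B} (h : Γ ≤ (VB B).isFun s a b)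
    (h1 : Γ ≤ (VB B).rel s x y) (h2 : Γ ≤ (VB B).rel s x y') : Γ ≤ beq y y' := by
  have h3 : (VB B).isFun s a b ≤ (VB B).rel s x y ⊓ (VB B).rel s x y' ⇨ (VB B).eq y y' :=
    inf_le_right.trans (iInf_le_of_le x (iInf_le_of_le y (iInf_le _ y')))
  rw [le_himp_iff] at h3
  exact (le_inf h (le_inf h1 h2)).trans h3

theorem isFun_exists (s a b x : BName B) {Γ : B} (h : Γ ≤ (VB B).isFun s a b)
    (h1 : Γ ≤ bmem x a) : ∃ y, Γ ≤ (VB B).rel s x y := by
  have h2 : (VB B).isFun s a b ≤ ⨅ x, (VB B).mem x a ⇨ ⨆ y, (VB B).rel s x y :=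
    inf_le_left.trans inf_le_right
  exact exists_wit (ext_rel_trd s x) (iInf_himp_apply h2 x h h1)

/-- Every function from `ω` to `P(ω)` is one of the functions `fn a`. -/
theorem exists_fn (s : BName B) : ∃ a : ℕ → Rl B, (VB B).isFun s (check om) Pw ≤ beq s (fn a) := by
  set Γ := (VB B).isFun s (check om) Pw with hΓ
  have h1 : ∀ n : ℕ, ∃ y, Γ ≤ (VB B).rel s (check (nn n)) y := fun n =>
    isFun_exists s _ _ _ hΓ.le (by rw [nn_mem_om']; exact le_top)
  choose τ hτ using h1
  have h2 : ∀ n, Γ ≤ beq (τ n) (rn (rd (τ n))) := fun n => by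
    have h3 : Γ ≤ bmem (τ n) Pw :=
      (le_inf hΓ.le (hτ n)).trans ((isFun_rel_le s _ _ _ _).trans inf_le_right)
    rw [mem_Pw] at h3
    exact h3.trans (sub_om_le' (τ n))
  have h4 : ∀ n, Γ ≤ (VB B).rel s (check (nn n)) (rn (rd (τ n))) := fun n =>
    (ext_rel_trd s (check (nn n))).of_le (h2 n) (hτ n)
  refine ⟨fun n => rd (τ n), le_beq_iff.2 fun z => le_antisymm (le_inf inf_le_left ?_)
    (le_inf inf_le_left ?_)⟩
  · have h5 : Γ ≤ ⨅ p, (VB B).mem p s ⇨ ⨆ x, ⨆ y, (VB B).mem x (check om) ⊓ (VB B).mem y Pw ⊓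
      (VB B).isPair p x y := inf_le_left.trans inf_le_left
    have h6 := iInf_himp_apply h5 z (Δ := Γ ⊓ bmem z s) inf_le_left inf_le_right
    refine (le_inf le_rfl h6).trans ?_
    rw [inf_iSup_eq]
    refine iSup_le fun x => ?_
    rw [inf_iSup_eq]
    refine iSup_le fun y => ?_
    rw [VB_mem, VB_mem, isPair_eq, mem_check_om, iSup_inf_eq, iSup_inf_eq, inf_iSup_eq, mem_fn]
    refine iSup_mono fun n => ?_
    set Δ := Γ ⊓ bmem z s ⊓ (beq x (check (nn n)) ⊓ bmem y Pw ⊓ beq z (opr x y)) with hΔ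
    have e1 : Δ ≤ beq z (opr x y) := inf_le_right.trans inf_le_right
    have e2 : Δ ≤ beq x (check (nn n)) := inf_le_right.trans (inf_le_left.trans inf_le_left)
    have e3 : Δ ≤ (VB B).rel s x y := by
      rw [rel_eq]
      exact (ext_mem_left s).of_le (x := z) e1 (inf_le_left.trans inf_le_right)
    have e4 : Δ ≤ (VB B).rel s (check (nn n)) y := (ext_rel_snd s y).of_le e2 e3
    have e5 : Δ ≤ beq y (rn (rd (τ n))) :=
      isFun_unique s _ _ _ _ _ (inf_le_left.trans inf_le_left) e4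
        ((inf_le_left.trans inf_le_left).trans (h4 n))
    refine (ext_eq_right z).of_le (x := opr x y) ?_ e1
    rw [beq_opr]
    exact le_inf e2 e5
  · rw [mem_fn, inf_iSup_eq]
    refine iSup_le fun n => ?_
    refine (ext_mem_left s).of_le' (x := opr (check (nn n)) (rn (rd (τ n)))) inf_le_right ?_
    rw [← rel_eq]
    exact inf_le_left.trans (h4 n)

theorem iSup_isFun {φ : BName B → B} (h : Ext φ) :
    (⨆ s, (VB B).isFun s (check om) Pw ⊓ φ s) = ⨆ a : ℕ → Rl B, φ (fn a) := by
  refine le_antisymm (iSup_le fun s => ?_) (iSup_le fun a => ?_)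
  · obtain ⟨a, ha⟩ := exists_fn s
    exact le_iSup_of_le a (h.of_le (x := s) (inf_le_left.trans ha) inf_le_right)
  · refine le_iSup_of_le (fn a) ?_
    rw [isFun_fn, top_inf_eq]

/-! ## The ultrapower -/

/-- Membership in `un x` of a subset of `ω` defined by comprehension. -/
theorem comp_un {x : Rl B → B} (hx : NU x) (d : Rl B) {ψ : BName B → B}
    (hψ : ∀ z, ψ z = bmem z (rn d)) :
    (⨆ e, (VB B).mem e (un x) ⊓ ⨅ n, (VB B).mem n e ⇔ ψ n) = x d := by
  have h1 : ∀ e : BName B, (⨅ n, (VB B).mem n e ⇔ ψ n) = beq e (rn d) := fun e => by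
    rw [beq_eq_iInf]
    exact iInf_congr fun n => by rw [hψ n, VB_mem]
  simp only [h1]
  refine le_antisymm (iSup_le fun e => ?_) ?_
  · rw [← rn_mem_un hx d]
    exact (ext_mem_left (un x)).of_le (x := e) inf_le_right inf_le_left
  · refine le_iSup_of_le (rn d) ?_
    rw [beq_refl, inf_top_eq, VB_mem, rn_mem_un hx d]

theorem eqU_fn {x : Rl B → B} (hx : NU x) (a b : ℕ → Rl B) :
    eqU (VB B) (check om) (un x) (fn a) (fn b) = x fun n => ⨅ m, (a n m ⇔ b n m) := by
  refine comp_un hx _ fun z => ?_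
  rw [mem_rn, VB_mem, mem_check_om]
  refine le_antisymm ?_ (iSup_le fun n => le_inf (le_iSup_of_le n inf_le_right) ?_)
  · rw [inf_iSup_eq]
    refine iSup_le fun y => ?_
    rw [rel_fn, rel_fn, iSup_inf_iSup, inf_iSup_eq]
    refine iSup_le fun ⟨n, m⟩ => ?_
    by_cases h : n = m
    · subst h
      refine le_iSup_of_le n (le_inf ?_ ((inf_le_right.trans inf_le_left).trans inf_le_left))
      rw [← beq_rn_rn]
      exact (ext_eq_left (rn (b n))).of_le (x := y)
        ((inf_le_right.trans inf_le_left).trans inf_le_right)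
        ((inf_le_right.trans inf_le_right).trans inf_le_right)
    · refine le_trans ?_ bot_le
      rw [← beq_check_of_ne (B := B) (fun h' => h (nn_inj h'))]
      exact (ext_eq_left (check (nn m))).of_le (x := z)
        ((inf_le_right.trans inf_le_left).trans inf_le_left)
        ((inf_le_right.trans inf_le_right).trans inf_le_left)
  · refine le_iSup_of_le (rn (a n)) (le_inf ?_ ?_)
    · rw [rel_fn]
      refine le_iSup_of_le n (le_inf inf_le_right ?_)
      rw [beq_refl]; exact le_top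
    · rw [rel_fn]
      refine le_iSup_of_le n (le_inf inf_le_right ?_)
      rw [beq_rn_rn]; exact inf_le_left

theorem leU_fn {x : Rl B → B} (hx : NU x) (a b : ℕ → Rl B) :
    leU (VB B) (check om) (un x) (fn a) (fn b) = x fun n => ⨅ m, (a n m ⇨ b n m) := by
  refine comp_un hx _ fun z => ?_
  rw [mem_rn, VB_mem, mem_check_om]
  refine le_antisymm ?_ (iSup_le fun n => le_inf (le_iSup_of_le n inf_le_right) ?_)
  · rw [inf_iSup_eq]
    refine iSup_le fun y => ?_
    rw [inf_iSup_eq]
    refine iSup_le fun y' => inf_le_right.trans ?_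
    rw [rel_fn, rel_fn, iSup_inf_iSup, iSup_inf_eq]
    refine iSup_le fun ⟨n, m⟩ => ?_
    by_cases h : n = m
    · subst h
      refine le_iSup_of_le n (le_inf ?_
        (inf_le_left.trans (inf_le_left.trans inf_le_left)))
      rw [← sub_rn_rn]
      refine (ext_sub_left (rn (b n))).of_le (x := y)
        (inf_le_left.trans (inf_le_left.trans inf_le_right)) ?_
      exact (ext_sub_right y).of_le (x := y')
        (inf_le_left.trans (inf_le_right.trans inf_le_right)) inf_le_right
    · refine le_trans ?_ bot_le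
      rw [← beq_check_of_ne (B := B) (fun h' => h (nn_inj h'))]
      exact (ext_eq_left (check (nn m))).of_le (x := z)
        (inf_le_left.trans (inf_le_left.trans inf_le_left))
        (inf_le_left.trans (inf_le_right.trans inf_le_left))
  · refine le_iSup_of_le (rn (a n)) (le_iSup_of_le (rn (b n)) (le_inf (le_inf ?_ ?_) ?_))
    · rw [rel_fn]
      refine le_iSup_of_le n (le_inf inf_le_right ?_)
      rw [beq_refl]; exact le_top
    · rw [rel_fn]
      refine le_iSup_of_le n (le_inf inf_le_right ?_)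
      rw [beq_refl]; exact le_top
    · rw [sub_rn_rn]; exact inf_le_left

/-- The class of `fn a`. -/
noncomputable def cls (x : Rl B → B) (a : ℕ → Rl B) : BName B :=
  mk (ℕ → Rl B) fn fun b => x fun n => ⨅ m, (a n m ⇔ b n m)

theorem mem_cls {x : Rl B → B} (hx : NU x) (a : ℕ → Rl B) (s : BName B) :
    bmem s (cls x a) = (VB B).isFun s (check om) Pw ⊓ eqU (VB B) (check om) (un x) (fn a) s := by
  rw [cls, mem_mk]
  refine le_antisymm (iSup_le fun b => le_inf ?_ ?_) ?_
  · refine (ext_isFun_fst (check om) Pw).of_le' (x := fn b) inf_le_right ?_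
    rw [isFun_fn]; exact le_top
  · refine (ext_eqU_right _ _ _).of_le' (x := fn b) inf_le_right ?_
    rw [eqU_fn hx]; exact inf_le_left
  · obtain ⟨b, hb⟩ := exists_fn s
    refine le_iSup_of_le b (le_inf ?_ (inf_le_left.trans hb))
    rw [← eqU_fn hx]
    exact (ext_eqU_right _ _ _).of_le (x := s) (inf_le_left.trans hb) inf_le_right

theorem isCls_fn {x : Rl B → B} (hx : NU x) (a : ℕ → Rl B) (k : BName B) :
    isCls (VB B) (check om) Pw (un x) (fn a) k = beq k (cls x a) := by
  rw [beq_eq_iInf, isCls]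
  exact iInf_congr fun t => by rw [mem_cls hx, VB_mem]

/-- The ultrapower. -/
noncomputable def Wn (x : Rl B → B) : BName B := mk (ℕ → Rl B) (cls x) fun _ => ⊤

theorem mem_Wn {x : Rl B → B} (hx : NU x) (k : BName B) :
    bmem k (Wn x) = ⨆ s, (VB B).isFun s (check om) Pw ⊓
      isCls (VB B) (check om) Pw (un x) s k := by
  rw [iSup_isFun (ext_isCls_s _ _ _ k), Wn, mem_mk]
  exact iSup_congr fun a => by rw [top_inf_eq, isCls_fn hx]

theorem isUpw_Wn {x : Rl B → B} (hx : NU x) :
    isUpw (VB B) (check om) Pw (un x) (Wn x) = ⊤ := by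
  rw [isUpw, eq_top_iff]
  refine le_iInf fun k => ?_
  rw [VB_mem, mem_Wn hx, bihimp_self]

theorem nu_top {x : Rl B → B} (hx : NU x) {d : Rl B} (h : ∀ n, d n = ⊤) : x d = ⊤ := by
  have h1 : d = (⊥ : Rl B)ᶜ := funext fun n => by rw [h n]; simp
  rw [h1, hx.compl, NU.bot' hx, compl_bot]

theorem nu_mono {x : Rl B → B} (hx : NU x) {a b : Rl B} (h : ∀ n, a n ≤ b n) : x a ≤ x b := by
  have h1 : ssub a b = ⊤ := by
    rw [eq_top_iff]
    refine le_iSup_of_le 0 (le_iInf fun n => ?_)
    rw [le_himp_iff, top_inf_eq]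
    exact h _
  have h2 := hx.mono a b
  rwa [h1, top_inf_eq] at h2

theorem leW_cls {x : Rl B → B} (hx : NU x) (a b : ℕ → Rl B) :
    leW (VB B) (check om) (un x) (cls x a) (cls x b) = x fun n => ⨅ m, (a n m ⇨ b n m) := by
  refine le_antisymm (iSup_le fun s => iSup_le fun t => ?_) ?_
  · rw [VB_mem, VB_mem, mem_cls hx, mem_cls hx]
    obtain ⟨a', ha'⟩ := exists_fn s
    obtain ⟨b', hb'⟩ := exists_fn t
    set Δ := (VB B).isFun s (check om) Pw ⊓ eqU (VB B) (check om) (un x) (fn a) s ⊓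
      ((VB B).isFun t (check om) Pw ⊓ eqU (VB B) (check om) (un x) (fn b) t) ⊓
      leU (VB B) (check om) (un x) s t with hΔ
    have e1 : Δ ≤ beq s (fn a') := (inf_le_left.trans (inf_le_left.trans inf_le_left)).trans ha'
    have e2 : Δ ≤ beq t (fn b') := (inf_le_left.trans (inf_le_right.trans inf_le_left)).trans hb'
    have e3 : Δ ≤ x fun n => ⨅ m, (a n m ⇔ a' n m) := by
      rw [← eqU_fn hx]
      exact (ext_eqU_right _ _ _).of_le e1 (inf_le_left.trans (inf_le_left.trans inf_le_right))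
    have e4 : Δ ≤ x fun n => ⨅ m, (b n m ⇔ b' n m) := by
      rw [← eqU_fn hx]
      exact (ext_eqU_right _ _ _).of_le e2 (inf_le_left.trans (inf_le_right.trans inf_le_right))
    have e5 : Δ ≤ x fun n => ⨅ m, (a' n m ⇨ b' n m) := by
      rw [← leU_fn hx]
      refine (ext_leU_right _ _ _).of_le e2 ?_
      exact (ext_leU_left _ _ _).of_le e1 inf_le_right
    refine (le_inf (le_inf e3 e4) e5).trans ?_
    rw [← hx.inf, ← hx.inf]
    refine nu_mono hx fun n => le_iInf fun m => ?_
    simp only [Pi.inf_apply]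
    rw [le_himp_iff]
    have f1 : (⨅ m, (a n m ⇔ a' n m)) ⊓ (⨅ m, (b n m ⇔ b' n m)) ⊓ (⨅ m, (a' n m ⇨ b' n m)) ⊓ a n m ≤
        a' n m := by
      refine (le_inf ?_ inf_le_right).trans (himp_inf_le (a := a n m))
      refine (inf_le_left.trans (inf_le_left.trans inf_le_left)).trans ((iInf_le _ m).trans ?_)
      rw [bihimp_def]; exact inf_le_right
    have f2 : (⨅ m, (a n m ⇔ a' n m)) ⊓ (⨅ m, (b n m ⇔ b' n m)) ⊓ (⨅ m, (a' n m ⇨ b' n m)) ⊓ a n m ≤
        b' n m := by
      refine (le_inf ?_ f1).trans (himp_inf_le (a := a' n m))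
      exact (inf_le_left.trans inf_le_right).trans (iInf_le _ m)
    refine (le_inf ?_ f2).trans (himp_inf_le (a := b' n m))
    refine (inf_le_left.trans (inf_le_left.trans inf_le_right)).trans ((iInf_le _ m).trans ?_)
    rw [bihimp_def]; exact inf_le_left
  · refine le_iSup_of_le (fn a) (le_iSup_of_le (fn b) ?_)
    have e : ∀ a : ℕ → Rl B, (x fun n => ⨅ m, (a n m ⇔ a n m)) = ⊤ := fun a =>
      nu_top hx fun n => by simp only [bihimp_self, iInf_top]
    rw [VB_mem, VB_mem, mem_cls hx, mem_cls hx, isFun_fn, isFun_fn, eqU_fn hx, eqU_fn hx, leU_fn hx,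
      e, e, top_inf_eq, top_inf_eq, top_inf_eq]

end Pool.Agent.Lib.MP_6b029b_lc.H57
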