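import Pool.Agent.Lib.MP_6b029b_lc.H57.Typed
import Pool.Agent.Lib.MP_6b029b_lc.H57.Upw
import Pool.Agent.Lib.MP_100a6c_lc.Base5
import Pool.Agent.Lib.MP_c5d73d_lc.F.H90.Exu

/-!
# The universality statement has Boolean value `⊥`
-/

universe u v w

open scoped symmDiff
open Cardinal

namespace Pool.Agent.Lib.MP_6b029b_lc.H57

open Pool.Agent.Lib.MP_100a6c_lc Pool.Agent.Lib.MP_c5d73d_lc.F BName
open Pool.Agent.Lib.MP_c5d73d_lc.F.H36
open Pool.Agent.Lib.MP_100a6c_lc.H36 (nn om)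
open Pool.Agent.Lib.MP_100a6c_lc.H53 (Coh)

/-- The index type of the Cohen reals. -/
abbrev Ix (K : Type u) : Type u := K × Bool

/-- The bits of the Cohen reals. -/
abbrev Bt (K : Type u) : Type u := Ix K × ℕ

variable {K : Type u} {A B : Type u} [CompleteBooleanAlgebra A] [CompleteBooleanAlgebra B]
  {dA : Coh (Bt K) → A} {dB : Coh (Bt K) × Cd K → B}

/-! ## Cohen reals -/

/-- The Cohen real with index `l`. -/
noncomputable def co (dB : Coh (Bt K) × Cd K → B) (l : Ix K) : Rl B := fun n =>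
  ⨆ q : {q : Coh (Bt K) × Cd K // (l, n) ∈ q.1.pos}, dB q.1

theorem fo_co_pos {q : Coh (Bt K) × Cd K} {l : Ix K} {n : ℕ} (h : (l, n) ∈ q.1.pos) :
    dB q ≤ co dB l n :=
  le_iSup (fun q : {q : Coh (Bt K) × Cd K // (l, n) ∈ q.1.pos} => dB q.1) ⟨q, h⟩

theorem fo_co_neg (hB : Dns dB) {q : Coh (Bt K) × Cd K} {l : Ix K} {n : ℕ}
    (h : (l, n) ∈ q.1.neg) : dB q ≤ (co dB l n)ᶜ := by
  rw [hB.fo_compl]
  intro r hr hcon
  obtain ⟨r', hr', ⟨i, hi⟩, hri⟩ := (hB.fo_iSup r _).1 hcon r le_rfl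
  obtain ⟨r'', h1, h2⟩ := hB.comp hri
  exact r''.1.dis (l, n) (h2.1.1 hi) (((h1.trans hr').trans hr).1.2 h)

theorem co_ne (hB : Dns dB) {l l' : Ix K} (h : l ≠ l') :
    ⨅ n, (co dB l n ⇔ co dB l' n) = ⊥ := by
  classical
  by_contra hne
  obtain ⟨⟨p, x⟩, hp⟩ := hB.dense _ hne
  obtain ⟨n, hn⟩ : ∃ n : ℕ, ∀ z ∈ p.pos ∪ p.neg, z.2 ≠ n := by
    obtain ⟨n, hn⟩ := Infinite.exists_notMem_finset ((p.pos ∪ p.neg).image Prod.snd)
    exact ⟨n, fun z hz hzn => hn (Finset.mem_image.2 ⟨z, hz, hzn⟩)⟩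
  let q : Coh (Bt K) := ⟨insert (l, n) p.pos, insert (l', n) p.neg, by
    intro z hz hz'
    rcases Finset.mem_insert.1 hz with h1 | h1
    · rcases Finset.mem_insert.1 hz' with h2 | h2
      · rw [h1] at h2
        exact h (congrArg Prod.fst h2)
      · exact hn z (Finset.mem_union_right _ h2) (by rw [h1])
    · rcases Finset.mem_insert.1 hz' with h2 | h2
      · exact hn z (Finset.mem_union_left _ h1) (by rw [h2])
      · exact p.dis z h1 h2⟩
  have hq : ((q, x) : Coh (Bt K) × Cd K) ≤ (p, x) :=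
    ⟨⟨Finset.subset_insert _ _, Finset.subset_insert _ _⟩, le_rfl⟩
  have h1 : dB (q, x) ≤ co dB l n := fo_co_pos (Finset.mem_insert_self _ _)
  have h2 : dB (q, x) ≤ (co dB l' n)ᶜ := fo_co_neg hB (Finset.mem_insert_self _ _)
  have h3 : dB (q, x) ≤ co dB l n ⇔ co dB l' n := ((hB.mono hq).trans hp).trans (iInf_le _ n)
  exact hB.not_both (((hB.fo_bihimp _ _ _).1 h3 _ le_rfl).1 h1) h2

theorem beq_co (hB : Dns dB) {l l' : Ix K} (h : l ≠ l') :
    beq (rn (co dB l)) (rn (co dB l')) = ⊥ := by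
  rw [beq_rn_rn, co_ne hB h]

/-! ## The ordered set -/

open Classical in
/-- The value of `l ≤ l'`. -/
noncomputable def Rv (dB : Coh (Bt K) × Cd K → B) (l l' : Ix K) : B :=
  if l = l' then ⊤ else if l.2 = false ∧ l'.2 = true then gr dB l.1 l'.1 else ⊥

theorem Rv_self (l : Ix K) : Rv dB l l = ⊤ := if_pos rfl

theorem Rv_ft (s t : K) : Rv dB (s, false) (t, true) = gr dB s t := by
  rw [Rv, if_neg (by simp), if_pos ⟨rfl, rfl⟩]

theorem Rv_bot {l l' : Ix K} (h : l ≠ l') (h' : ¬ (l.2 = false ∧ l'.2 = true)) :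
    Rv dB l l' = ⊥ := by
  rw [Rv, if_neg h, if_neg h']

/-- The set of the Cohen reals. -/
noncomputable def Xn (dB : Coh (Bt K) × Cd K → B) : BName B :=
  mk (Ix K) (fun l => rn (co dB l)) fun _ => ⊤

/-- The order. -/
noncomputable def rr (dB : Coh (Bt K) × Cd K → B) : BName B :=
  relFam (ι := Ix K × Ix K) (fun l => rn (co dB l.1)) (fun l => rn (co dB l.2))
    fun l => Rv dB l.1 l.2

theorem rel_rr (hB : Dns dB) (l l' : Ix K) :
    (VB B).rel (rr dB) (rn (co dB l)) (rn (co dB l')) = Rv dB l l' := by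
  rw [rr, rel_relFam]
  refine le_antisymm (iSup_le fun ⟨k, k'⟩ => ?_) ?_
  · by_cases h : l = k
    · by_cases h' : l' = k'
      · subst h; subst h'; exact inf_le_left
      · refine (inf_le_right.trans inf_le_right).trans ?_
        change beq (rn (co dB l')) (rn (co dB k')) ≤ _
        rw [beq_co hB h']; exact bot_le
    · refine (inf_le_right.trans inf_le_left).trans ?_
      change beq (rn (co dB l)) (rn (co dB k)) ≤ _
      rw [beq_co hB h]; exact bot_le
  · refine le_iSup_of_le (l, l') ?_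
    rw [beq_refl, beq_refl, inf_top_eq, inf_top_eq]

theorem co_mem_Xn (l : Ix K) : bmem (rn (co dB l)) (Xn dB) = ⊤ := by
  rw [eq_top_iff]
  exact vl_le_bmem (Xn dB) l

theorem le_iInf_Xn {φ : BName B → B} (h : Ext φ) {Γ : B} (h' : ∀ l, Γ ≤ φ (rn (co dB l))) :
    Γ ≤ ⨅ z, bmem z (Xn dB) ⇨ φ z := by
  rw [le_iInf_mem h]
  intro l
  exact inf_le_left.trans (h' l)

theorem Rv_antisymm {l l' : Ix K} (h : l ≠ l') : Rv dB l l' ⊓ Rv dB l' l = ⊥ := by
  by_cases h1 : l.2 = false ∧ l'.2 = true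
  · rw [Rv_bot (l := l') (l' := l) (Ne.symm h), inf_bot_eq]
    rintro ⟨h2, _⟩
    rw [h1.2] at h2
    cases h2
  · rw [Rv_bot h h1, bot_inf_eq]

theorem Rv_trans (l l' l'' : Ix K) : Rv dB l l' ⊓ Rv dB l' l'' ≤ Rv dB l l'' := by
  by_cases h : l = l'
  · subst h; exact inf_le_right
  by_cases h' : l' = l''
  · subst h'; exact inf_le_left
  by_cases h1 : l.2 = false ∧ l'.2 = true
  · rw [Rv_bot (l := l') (l' := l'') h', inf_bot_eq]
    · exact bot_le
    · rintro ⟨h2, _⟩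
      rw [h1.2] at h2
      cases h2
  · rw [Rv_bot h h1, bot_inf_eq]; exact bot_le

theorem isPoset_Xn (hB : Dns dB) : isPoset (VB B) (Xn dB) (rr dB) = ⊤ := by
  rw [eq_top_iff]
  refine le_inf (le_inf ?_ ?_) ?_
  · refine le_iInf_Xn (φ := fun p => (VB B).rel (rr dB) p p) ?_ fun l => ?_
    · intro x y
      have h1 := (ext_rel_snd (rr dB) x).of_le (Γ := beq x y ⊓ (VB B).rel (rr dB) x x)
        (x := x) (y := y) inf_le_left inf_le_right
      exact (ext_rel_trd (rr dB) y).of_le (x := x) inf_le_left h1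
    · rw [rel_rr hB, Rv_self]
  · have h1 : (⊤ : B) ≤ ⨅ p, bmem p (Xn dB) ⇨ ⨅ q, bmem q (Xn dB) ⇨
        ((VB B).rel (rr dB) p q ⊓ (VB B).rel (rr dB) q p ⇨ beq p q) := by
      refine le_iInf_Xn ?_ fun l => le_iInf_Xn ?_ fun l' => ?_
      · exact Ext.iInf fun q => (Ext.const _).himp (((ext_rel_snd (rr dB) q).inf
          (ext_rel_trd (rr dB) q)).himp (ext_eq_left q))
      · exact ((ext_rel_trd (rr dB) _).inf (ext_rel_snd (rr dB) _)).himp (ext_eq_right _)
      · rw [le_himp_iff, top_inf_eq, rel_rr hB, rel_rr hB]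
        by_cases h : l = l'
        · subst h; rw [beq_refl]; exact le_top
        · rw [Rv_antisymm h]; exact bot_le
    refine le_iInf fun p => le_iInf fun q => ?_
    rw [le_himp_iff, top_inf_eq]
    have h2 := h1.trans (iInf_le _ p)
    rw [le_himp_iff, top_inf_eq] at h2
    have h3 := h2.trans (iInf_le _ q)
    rw [le_himp_iff, le_himp_iff] at h3
    refine le_trans (le_inf (le_inf ?_ ?_) (le_inf ?_ ?_)) h3
    · exact (inf_le_left.trans inf_le_left).trans inf_le_left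
    · exact (inf_le_left.trans inf_le_left).trans inf_le_right
    · exact inf_le_left.trans inf_le_right
    · exact inf_le_right
  · have h1 : (⊤ : B) ≤ ⨅ p, bmem p (Xn dB) ⇨ ⨅ q, bmem q (Xn dB) ⇨ ⨅ s, bmem s (Xn dB) ⇨
        ((VB B).rel (rr dB) p q ⊓ (VB B).rel (rr dB) q s ⇨ (VB B).rel (rr dB) p s) := by
      refine le_iInf_Xn ?_ fun l => le_iInf_Xn ?_ fun l' => le_iInf_Xn ?_ fun l'' => ?_
      · exact Ext.iInf fun q => (Ext.const _).himp (Ext.iInf fun s => (Ext.const _).himp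
          (((ext_rel_snd (rr dB) q).inf (Ext.const _)).himp (ext_rel_snd (rr dB) s)))
      · exact Ext.iInf fun s => (Ext.const _).himp
          (((ext_rel_trd (rr dB) _).inf (ext_rel_snd (rr dB) s)).himp (Ext.const _))
      · exact ((Ext.const _).inf (ext_rel_trd (rr dB) _)).himp (ext_rel_trd (rr dB) _)
      · rw [le_himp_iff, top_inf_eq, rel_rr hB, rel_rr hB, rel_rr hB]
        exact Rv_trans l l' l''
    refine le_iInf fun p => le_iInf fun q => le_iInf fun s => ?_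
    rw [le_himp_iff, top_inf_eq]
    have h2 := h1.trans (iInf_le _ p)
    rw [le_himp_iff, top_inf_eq] at h2
    have h3 := h2.trans (iInf_le _ q)
    rw [le_himp_iff] at h3
    have h4 := h3.trans (iInf_le _ s)
    rw [le_himp_iff, le_himp_iff] at h4
    refine le_trans (le_inf (le_inf (le_inf ?_ ?_) ?_) (le_inf ?_ ?_)) h4
    · exact ((inf_le_left.trans inf_le_left).trans inf_le_left).trans inf_le_left
    · exact ((inf_le_left.trans inf_le_left).trans inf_le_left).trans inf_le_right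
    · exact (inf_le_left.trans inf_le_left).trans inf_le_right
    · exact inf_le_left.trans inf_le_right
    · exact inf_le_right

/-! ## Cardinality -/

theorem leCard_Xn_Pw : (VB B).leCard (Xn dB) Pw = ⊤ := by
  rw [eq_top_iff]
  refine le_trans ?_ (sub_le_leCard (Xn dB) Pw)
  rw [le_sub_iff]
  intro l
  change _ ≤ bmem (rn (co dB l)) Pw
  rw [rn_mem_Pw]; exact le_top

theorem leCard_Pw_Xn (hA : Dns dA) (hB : Dns dB)
    (code : Ix K → ℕ → ℕ → Option (Coh (Bt K))) (hcode : Function.Surjective code) :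
    (VB B).leCard Pw (Xn dB) = ⊤ := by
  rw [eq_top_iff]
  refine le_leCard (Y := Ix K) (fun l => rn (co dB l))
    (fun l z => beq z (rn fun n => em dA dB (va dA (code l n)))) ?_ ?_ ?_ ?_ ?_
  · exact fun l l' h => beq_co hB h
  · intro l; rw [co_mem_Xn]; exact le_top
  · intro l; exact ext_eq_left _
  · intro l z z'
    rw [top_inf_eq]
    exact (ext_eq_right z).of_le' (x := rn fun n => em dA dB (va dA (code l n))) inf_le_right
      inf_le_left
  · intro z
    rw [top_inf_eq, mem_Pw]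
    refine (sub_om_le' z).trans ?_
    have h1 : beq z (rn (rd z)) = ⨆ t : ℕ → ℕ → Option (Coh (Bt K)),
        (⨅ n, (rd z n ⇔ em dA dB (va dA (t n)))) ⊓ beq z (rn (rd z)) := by
      rw [← iSup_inf_eq, cover hA hB (rd z), top_inf_eq]
    rw [h1]
    refine iSup_le fun t => ?_
    obtain ⟨l, rfl⟩ := hcode t
    refine le_iSup_of_le l ?_
    refine (ext_eq_right z).of_le (x := rn (rd z)) ?_ inf_le_right
    rw [beq_rn_rn]
    exact inf_le_left

/-! ## No embedding -/

theorem isEmb_eq_bot (hK : continuum.{u} < #K) (hA : Dns dA) (hB : Dns dB) {U : Rl A → A}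
    (hU : NU U) (F : BName B) :
    isEmb (VB B) (check om) (un (UU dA dB U)) (Wn (UU dA dB U)) (Xn dB) (rr dB) F = ⊥ := by
  have hx : NU (UU dA dB U) := nu_UU hA hB hU
  set x := UU dA dB U with hxdef
  set Γ := isEmb (VB B) (check om) (un x) (Wn x) (Xn dB) (rr dB) F with hΓ
  have hF : Γ ≤ (VB B).isFun F (Xn dB) (Wn x) := inf_le_left
  have h1 : ∀ l : Ix K, ∃ (k : BName B) (a : ℕ → Rl B),
      Γ ≤ (VB B).rel F (rn (co dB l)) k ∧ Γ ≤ beq k (cls x a) := by
    intro l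
    obtain ⟨k, hk⟩ := isFun_exists F _ _ (rn (co dB l)) hF (by rw [co_mem_Xn]; exact le_top)
    have h2 : Γ ≤ bmem k (Wn x) := (le_inf hF hk).trans ((isFun_rel_le F _ _ _ _).trans inf_le_right)
    rw [mem_Wn hx] at h2
    obtain ⟨s, hs⟩ := exists_wit ((ext_isFun_fst (check om) Pw).inf (ext_isCls_s _ _ _ k)) h2
    obtain ⟨a, ha⟩ := exists_fn s
    refine ⟨k, a, hk, ?_⟩
    rw [← isCls_fn hx]
    exact (ext_isCls_s _ _ _ k).of_le (x := s) ((hs.trans inf_le_left).trans ha)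
      (hs.trans inf_le_right)
  choose k a hk ha using h1
  have h3 : ∀ l l' : Ix K, Γ ≤ Rv dB l l' ⇔ x fun n => ⨅ m, (a l n m ⇨ a l' n m) := by
    intro l l'
    have h4 : Γ ≤ (VB B).mem (rn (co dB l)) (Xn dB) ⊓ (VB B).mem (rn (co dB l')) (Xn dB) ⊓
        (VB B).rel F (rn (co dB l)) (k l) ⊓ (VB B).rel F (rn (co dB l')) (k l') ⇨
        ((VB B).rel (rr dB) (rn (co dB l)) (rn (co dB l')) ⇔
          leW (VB B) (check om) (un x) (k l) (k l')) :=
      inf_le_right.trans (iInf_le_of_le _ (iInf_le_of_le _ (iInf_le_of_le _ (iInf_le _ _))))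
    rw [VB_mem, VB_mem, co_mem_Xn, co_mem_Xn, top_inf_eq, top_inf_eq, rel_rr hB] at h4
    have h5 : Γ ≤ Rv dB l l' ⇔ leW (VB B) (check om) (un x) (k l) (k l') :=
      (le_inf h4 (le_inf (hk l) (hk l'))).trans himp_inf_le
    rw [← leW_cls hx]
    have h6 : Ext fun z => Rv dB l l' ⇔ leW (VB B) (check om) (un x) z (k l') :=
      (Ext.const _).bihimp (ext_leW_left _ _ _)
    have h7 : Ext fun z => Rv dB l l' ⇔ leW (VB B) (check om) (un x) (cls x (a l)) z :=
      (Ext.const _).bihimp (ext_leW_right _ _ _)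
    exact h7.of_le (ha l') (h6.of_le (ha l) h5)
  refine le_bot_iff.1 ?_
  rw [← typed hK hA hB hU (fun s => a (s, false)) (fun t => a (t, true))]
  refine le_iInf fun s => le_iInf fun t => ?_
  rw [← Rv_ft]
  exact h3 (s, false) (t, true)

/-- The universality statement fails in `V^B`. -/
theorem universality_eq_bot (hK : continuum.{u} < #K) (hA : Dns dA) (hB : Dns dB)
    (code : Ix K → ℕ → ℕ → Option (Coh (Bt K))) (hcode : Function.Surjective code) :
    Universality (VB B) = ⊥ := by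
  obtain ⟨U, hU⟩ := exists_nu H90.exu A
  have hx : NU (UU dA dB U) := nu_UU hA hB hU
  refine le_bot_iff.1 ?_
  have h1 : isOm (VB B) (check om) ⊓ isPow (VB B) Pw (check om) ⊓
      isNPU (VB B) (check om) (un (UU dA dB U)) = ⊤ := by
    rw [isOm_om, isPow_om, beq_refl, isNPU_un hx, top_inf_eq, top_inf_eq]
  have h2 : Universality (VB B) ≤ isUniv (VB B) (check om) Pw (un (UU dA dB U)) := by
    have h3 : Universality (VB B) ≤ isOm (VB B) (check om) ⊓ isPow (VB B) Pw (check om) ⊓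
        isNPU (VB B) (check om) (un (UU dA dB U)) ⇨
        isUniv (VB B) (check om) Pw (un (UU dA dB U)) :=
      iInf_le_of_le _ (iInf_le_of_le _ (iInf_le _ _))
    rwa [h1, top_himp] at h3
  refine h2.trans ?_
  have h4 : isUniv (VB B) (check om) Pw (un (UU dA dB U)) ≤
      isUpw (VB B) (check om) Pw (un (UU dA dB U)) (Wn (UU dA dB U)) ⊓
        isPoset (VB B) (Xn dB) (rr dB) ⊓ ((VB B).leCard (Xn dB) Pw ⊓ (VB B).leCard Pw (Xn dB)) ⇨
        ⨆ F, isEmb (VB B) (check om) (un (UU dA dB U)) (Wn (UU dA dB U)) (Xn dB) (rr dB) F :=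
    iInf_le_of_le _ (iInf_le_of_le _ (iInf_le _ _))
  rw [isUpw_Wn hx, isPoset_Xn hB, leCard_Xn_Pw, leCard_Pw_Xn hA hB code hcode, top_inf_eq,
    top_inf_eq, top_himp] at h4
  refine h4.trans (iSup_le fun F => ?_)
  rw [isEmb_eq_bot hK hA hB hU F]

end Pool.Agent.Lib.MP_6b029b_lc.H57
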