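import Pool.Agent.Lib.MP_6b029b_lc.H57.Forc
import Pool.Agent.Lib.MP_100a6c_lc.H53.Cohen

/-!
# Nice names for sequences of truth values, for the product of Cohen forcing and a σ-closed poset
-/

universe u v w

open scoped symmDiff

namespace Pool.Agent.Lib.MP_6b029b_lc.H57

open Pool.Agent.Lib.MP_100a6c_lc.H53 (Coh)

variable {X : Type u}

/-- The domain of `p` is contained in `S`. -/
def InS (p : Coh X) (S : Set X) : Prop := (∀ x ∈ p.pos, x ∈ S) ∧ ∀ x ∈ p.neg, x ∈ S

theorem InS.mono {p : Coh X} {S T : Set X} (h : InS p S) (hST : S ⊆ T) : InS p T :=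
  ⟨fun x hx => hST (h.1 x hx), fun x hx => hST (h.2 x hx)⟩

open Classical in
/-- The restriction of `p` to `S`. -/
noncomputable def res (p : Coh X) (S : Set X) : Coh X :=
  ⟨p.pos.filter fun x => x ∈ S, p.neg.filter fun x => x ∈ S, fun x hx hx' =>
    p.dis x (Finset.mem_filter.1 hx).1 (Finset.mem_filter.1 hx').1⟩

theorem mem_res_pos {p : Coh X} {S : Set X} {x : X} : x ∈ (res p S).pos ↔ x ∈ p.pos ∧ x ∈ S := by
  classical exact Finset.mem_filter

theorem mem_res_neg {p : Coh X} {S : Set X} {x : X} : x ∈ (res p S).neg ↔ x ∈ p.neg ∧ x ∈ S := by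
  classical exact Finset.mem_filter

theorem inS_res (p : Coh X) (S : Set X) : InS (res p S) S :=
  ⟨fun _ hx => (mem_res_pos.1 hx).2, fun _ hx => (mem_res_neg.1 hx).2⟩

/-- Amalgamation. -/
theorem exists_amalgam {p q : Coh X} {S : Set X} (hq : InS q S) (h : q ≤ res p S) :
    ∃ r : Coh X, r ≤ p ∧ r ≤ q := by
  classical
  refine ⟨⟨p.pos ∪ q.pos, p.neg ∪ q.neg, fun x hx hx' => ?_⟩,
    ⟨Finset.subset_union_left, Finset.subset_union_left⟩,
    ⟨Finset.subset_union_right, Finset.subset_union_right⟩⟩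
  rcases Finset.mem_union.1 hx with h1 | h1 <;> rcases Finset.mem_union.1 hx' with h2 | h2
  · exact p.dis x h1 h2
  · exact q.dis x (h.1 (mem_res_pos.2 ⟨h1, hq.2 x h2⟩)) h2
  · exact q.dis x h1 (h.2 (mem_res_neg.2 ⟨h2, hq.1 x h1⟩))
  · exact q.dis x h1 h2

theorem coh_ext {p q : Coh X} (h : p.pos = q.pos) (h' : p.neg = q.neg) : p = q := by
  cases p; cases q; simp only at h h'; subst h h'; rfl

theorem finite_inS {S : Set X} (hS : S.Finite) : {p : Coh X | InS p S}.Finite := by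
  have h1 : {T : Finset X | ∀ x ∈ T, x ∈ S}.Finite := by
    have := hS.finite_subsets
    refine (this.preimage (f := fun T : Finset X => (T : Set X))
      (Finset.coe_injective.injOn)).subset ?_
    intro T hT x hx
    exact hT x hx
  refine Set.Finite.of_finite_image (f := fun p : Coh X => (p.pos, p.neg))
    ((h1.prod h1).subset ?_) ?_
  · rintro _ ⟨p, hp, rfl⟩
    exact ⟨hp.1, hp.2⟩
  · intro p _ q _ h
    exact coh_ext (congrArg Prod.fst h) (congrArg Prod.snd h)

theorem countable_inS {S : Set X} (hS : S.Countable) : {p : Coh X | InS p S}.Countable := by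
  have h1 : {T : Finset X | ∀ x ∈ T, x ∈ S}.Countable := by
    have := Set.countable_ofPred_finite_subset hS
    refine (this.preimage_of_injOn (f := fun T : Finset X => (T : Set X))
      (Finset.coe_injective.injOn)).mono ?_
    intro T hT
    exact ⟨T.finite_toSet, fun x hx => hT x hx⟩
  refine Set.countable_of_injective_of_countable_image (f := fun p : Coh X => (p.pos, p.neg)) ?_
    ((h1.prod h1).mono ?_)
  · intro p _ q _ h
    exact coh_ext (congrArg Prod.fst h) (congrArg Prod.snd h)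
  · rintro _ ⟨p, hp, rfl⟩
    exact ⟨hp.1, hp.2⟩

theorem exists_enum {T : Type v} {R : Set T} (hR : R.Countable) :
    ∃ s : ℕ → Option T, ∀ q, (∃ k, s k = some q) ↔ q ∈ R := by
  rcases R.eq_empty_or_nonempty with h | h
  · subst h
    exact ⟨fun _ => none, fun q => by simp⟩
  · obtain ⟨f, hf⟩ := hR.exists_eq_range h
    refine ⟨fun k => some (f k), fun q => ?_⟩
    rw [hf]
    constructor
    · rintro ⟨k, hk⟩
      exact ⟨k, Option.some_injective _ hk⟩
    · rintro ⟨k, hk⟩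
      exact ⟨k, congrArg some hk⟩

/-- The truth value given by a sequence of conditions. -/
noncomputable def va {C : Type u} {A : Type w} [CompleteBooleanAlgebra A] (dA : C → A)
    (s : ℕ → Option C) : A :=
  ⨆ q : {q : C // ∃ k, s k = some q}, dA q.1

section

variable {E : Type u} [Preorder E] {A B : Type w} [CompleteBooleanAlgebra A]
  [CompleteBooleanAlgebra B] {dA : Coh X → A} {dB : Coh X × E → B}

/-- `q` decides `b`. -/
def Dec (dB : Coh X × E → B) (p : Coh X) (x : E) (b : B) : Prop := dB (p, x) ≤ b ∨ dB (p, x) ≤ bᶜ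

theorem Dec.mono (hB : Dns dB) {p : Coh X} {x y : E} {b : B} (h : Dec dB p x b) (hy : y ≤ x) :
    Dec dB p y b := by
  have h1 : dB (p, y) ≤ dB (p, x) := hB.mono ⟨le_rfl, hy⟩
  rcases h with h | h
  · exact Or.inl (h1.trans h)
  · exact Or.inr (h1.trans h)

theorem step_fin (hB : Dns dB) (a : ℕ → B) (x : E) {T : Set (ℕ × Coh X)} (hT : T.Finite) :
    ∃ x' ≤ x, ∀ t ∈ T, ∃ p' ≤ t.2, Dec dB p' x' (a t.1) := by
  induction T, hT using Set.Finite.induction_on with
  | empty => exact ⟨x, le_rfl, fun t ht => absurd ht (Set.notMem_empty t)⟩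
  | @insert t T _ _ ih =>
    obtain ⟨x1, hx1, h1⟩ := ih
    obtain ⟨⟨p', x2⟩, hle, hdec⟩ := hB.decide (t.2, x1) (a t.1)
    refine ⟨x2, hle.2.trans hx1, fun s hs => ?_⟩
    rcases Set.mem_insert_iff.1 hs with rfl | hs
    · exact ⟨p', hle.1, hdec⟩
    · obtain ⟨q, hq, hq'⟩ := h1 s hs
      exact ⟨q, hq, hq'.mono hB hle.2⟩

/-- One step of the construction. -/
def Stp (dB : Coh X × E → B) (a : ℕ → B) (k : ℕ) (s s' : {S : Set X // S.Finite} × E) : Prop :=
  s.1.1 ⊆ s'.1.1 ∧ s'.2 ≤ s.2 ∧ ∀ n ≤ k, ∀ p, InS p s.1.1 →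
    ∃ p' ≤ p, InS p' s'.1.1 ∧ Dec dB p' s'.2 (a n)

theorem exists_stp (hB : Dns dB) (a : ℕ → B) (k : ℕ) (s : {S : Set X // S.Finite} × E) :
    ∃ s', Stp dB a k s s' := by
  classical
  have : Nonempty (Coh X) := ⟨⟨∅, ∅, by simp⟩⟩
  have hT : ({n : ℕ | n ≤ k} ×ˢ {p : Coh X | InS p s.1.1}).Finite :=
    (Set.finite_le_nat k).prod (finite_inS s.1.2)
  obtain ⟨x', hx', h⟩ := step_fin hB a s.2 hT
  choose! f hf hf' using h
  refine ⟨⟨⟨s.1.1 ∪ ⋃ t ∈ {n : ℕ | n ≤ k} ×ˢ {p : Coh X | InS p s.1.1},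
    (((f t).pos : Set X) ∪ ((f t).neg : Set X)), ?_⟩, x'⟩, Set.subset_union_left, hx', ?_⟩
  · refine s.1.2.union (hT.biUnion fun t _ => ?_)
    exact (Finset.finite_toSet _).union (Finset.finite_toSet _)
  · intro n hn p hp
    have ht : (n, p) ∈ {n : ℕ | n ≤ k} ×ˢ {p : Coh X | InS p s.1.1} := ⟨hn, hp⟩
    refine ⟨f (n, p), hf _ ht, ?_, hf' _ ht⟩
    constructor
    · intro x hx
      right
      rw [Set.mem_iUnion₂]
      exact ⟨_, ht, Or.inl hx⟩
    · intro x hx
      right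
      rw [Set.mem_iUnion₂]
      exact ⟨_, ht, Or.inr hx⟩

/-- Nice names. -/
theorem nice (hA : Dns dA) (hB : Dns dB)
    (hE : ∀ x : ℕ → E, (∀ n, x (n + 1) ≤ x n) → ∃ z, ∀ n, z ≤ x n) (a : ℕ → B) (x : E) :
    ∃ x' ≤ x, ∃ t : ℕ → ℕ → Option (Coh X), ∀ n p y, y ≤ x' →
      (dB (p, y) ≤ a n ↔ dA p ≤ va dA (t n)) := by
  classical
  choose nx hnx using exists_stp hB a
  let f : ℕ → {S : Set X // S.Finite} × E := fun k =>
    Nat.rec (motive := fun _ => {S : Set X // S.Finite} × E) (⟨∅, Set.finite_empty⟩, x)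
      (fun k s => nx k s) k
  have hf : ∀ k, Stp dB a k (f k) (f (k + 1)) := fun k => hnx k (f k)
  obtain ⟨x', hx'⟩ := hE (fun k => (f k).2) fun k => (hf k).2.1
  have hmono : Monotone fun k => (f k).1.1 := monotone_nat_of_le_succ fun k => (hf k).1
  let S : Set X := ⋃ k, (f k).1.1
  have hScount : S.Countable := Set.countable_iUnion fun k => (f k).1.2.countable
  -- density of the conditions which decide
  have key : ∀ (n : ℕ) (q : Coh X), ∃ r, InS r S ∧ Dec dB r x' (a n) ∧ ∃ r', r' ≤ q ∧ r' ≤ r := by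
    intro n q
    have h1 : ∃ k, InS (res q S) (f k).1.1 := by
      have hdir : Directed (· ⊆ ·) fun k => (f k).1.1 := hmono.directed_le
      have hfin : (((res q S).pos ∪ (res q S).neg : Finset X) : Set X) ⊆ ⋃ k, (f k).1.1 := by
        intro y hy
        rw [Finset.mem_coe, Finset.mem_union] at hy
        rcases hy with hy | hy
        · exact (inS_res q S).1 y hy
        · exact (inS_res q S).2 y hy
      obtain ⟨k, hk⟩ := hdir.exists_mem_subset_of_finset_subset_biUnion hfin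
      refine ⟨k, fun y hy => hk ?_, fun y hy => hk ?_⟩
      · rw [Finset.mem_coe, Finset.mem_union]; exact Or.inl hy
      · rw [Finset.mem_coe, Finset.mem_union]; exact Or.inr hy
    obtain ⟨k, hk⟩ := h1
    obtain ⟨r, hr, hrS, hdec⟩ := (hf (max k n)).2.2 n (le_max_right _ _) (res q S)
      (hk.mono (hmono (le_max_left _ _)))
    have hsub : (f (max k n + 1)).1.1 ⊆ S := fun y hy =>
      Set.mem_iUnion.2 ⟨max k n + 1, hy⟩
    refine ⟨r, hrS.mono hsub, hdec.mono hB (hx' (max k n + 1)), ?_⟩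
    exact exists_amalgam (hrS.mono hsub) hr
  have hR : ∀ n, ∃ s : ℕ → Option (Coh X), ∀ q, (∃ k, s k = some q) ↔
      q ∈ {q : Coh X | InS q S ∧ dB (q, x') ≤ a n} := fun n =>
    exists_enum ((countable_inS hScount).mono fun q hq => hq.1)
  choose t ht using hR
  refine ⟨x', hx' 0, t, fun n p y hy => ⟨fun h => ?_, fun h => ?_⟩⟩
  · rw [va, hA.fo_iSup]
    intro q hq
    obtain ⟨r, hrS, hdec, r', hr'q, hr'r⟩ := key n q
    have h0 : ((r', y) : Coh X × E) ≤ (p, y) := ⟨hr'q.trans hq, le_rfl⟩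
    have h1 : dB (r', y) ≤ a n := (hB.mono h0).trans h
    have h2 : dB (r, x') ≤ a n := by
      rcases hdec with h2 | h2
      · exact h2
      · exfalso
        have h3 : ((r', y) : Coh X × E) ≤ (r, x') := ⟨hr'r, hy⟩
        exact hB.not_both h1 ((hB.mono h3).trans h2)
    exact ⟨r', hr'q, ⟨r, (ht n r).2 ⟨hrS, h2⟩⟩, hA.mono hr'r⟩
  · rw [va, hA.fo_iSup] at h
    rw [hB.fo_dense]
    rintro ⟨q, z⟩ hq
    obtain ⟨r, hr, ⟨i, hi⟩, hri⟩ := h q hq.1
    obtain ⟨s, hs, hs'⟩ := hA.comp hri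
    refine ⟨(s, z), ⟨hs.trans hr, le_rfl⟩, ?_⟩
    have h1 := ((ht n i).1 hi).2
    have h3 : ((s, z) : Coh X × E) ≤ (i, x') := ⟨hs', hq.2.trans hy⟩
    exact (hB.mono h3).trans h1

end

end Pool.Agent.Lib.MP_6b029b_lc.H57
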