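import Mathlib

/-!
# Countable approximations of a binary relation; the pair lemma
-/

universe u

open Cardinal

namespace Pool.Agent.Lib.MP_6b029b_lc.H57

/-- Conditions: a countable set `a` and a relation `g` (which matters on `a` only). -/
structure Cd (K : Type u) : Type u where
  a : Set K
  g : K → K → Prop
  ctble : a.Countable

variable {K : Type u}

instance : Preorder (Cd K) where
  le x y := y.a ⊆ x.a ∧ ∀ s ∈ y.a, ∀ t ∈ y.a, (x.g s t ↔ y.g s t)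
  le_refl x := ⟨subset_rfl, fun _ _ _ _ => Iff.rfl⟩
  le_trans x y z h h' := ⟨h'.1.trans h.1, fun s hs t ht =>
    (h.2 s (h'.1 hs) t (h'.1 ht)).trans (h'.2 s hs t ht)⟩

theorem Cd.le_def {x y : Cd K} :
    x ≤ y ↔ y.a ⊆ x.a ∧ ∀ s ∈ y.a, ∀ t ∈ y.a, (x.g s t ↔ y.g s t) := Iff.rfl

theorem cd_closed (x : ℕ → Cd K) (h : ∀ n, x (n + 1) ≤ x n) : ∃ z : Cd K, ∀ n, z ≤ x n := by
  have hanti : Antitone x := antitone_nat_of_succ_le h
  refine ⟨⟨⋃ n, (x n).a, fun s t => ∃ n, s ∈ (x n).a ∧ t ∈ (x n).a ∧ (x n).g s t,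
    Set.countable_iUnion fun n => (x n).ctble⟩, fun n =>
    ⟨Set.subset_iUnion (fun n => (x n).a) n, ?_⟩⟩
  intro s hs t ht
  constructor
  · rintro ⟨m, hs', ht', hg⟩
    have h1 := (hanti (le_max_left m n)).2 s hs' t ht'
    have h2 := (hanti (le_max_right m n)).2 s hs t ht
    exact h2.1 (h1.2 hg)
  · intro hg
    exact ⟨n, hs, ht, hg⟩

/-- Adding a point to the domain. -/
theorem exists_add (x : Cd K) (s : K) : ∃ y ≤ x, s ∈ y.a := by
  classical
  refine ⟨⟨insert s x.a, x.g, x.ctble.insert s⟩, ⟨Set.subset_insert _ _, fun _ _ _ _ => Iff.rfl⟩,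
    Set.mem_insert _ _⟩

/-- Amalgamation of two conditions which agree on the intersection of the domains, with a
prescribed value at a pair which is in neither domain. -/
theorem exists_glue (x y : Cd K) (h : ∀ s t, s ∈ x.a → s ∈ y.a → t ∈ x.a → t ∈ y.a →
    (x.g s t ↔ y.g s t)) (s t : K) (hs : s ∈ x.a) (ht : t ∈ y.a) (hs' : s ∉ y.a) (ht' : t ∉ x.a)
    (v : Prop) : ∃ z : Cd K, z ≤ x ∧ z ≤ y ∧ s ∈ z.a ∧ t ∈ z.a ∧ (z.g s t ↔ v) := by
  classical
  refine ⟨⟨x.a ∪ y.a, fun s t => (s ∈ x.a ∧ t ∈ x.a ∧ x.g s t) ∨ (s ∈ y.a ∧ t ∈ y.a ∧ y.g s t) ∨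
    (¬ (s ∈ x.a ∧ t ∈ x.a) ∧ ¬ (s ∈ y.a ∧ t ∈ y.a) ∧ v), x.ctble.union y.ctble⟩,
    ⟨Set.subset_union_left, ?_⟩, ⟨Set.subset_union_right, ?_⟩, Or.inl hs, Or.inr ht, ?_⟩
  · intro s1 hs1 t1 ht1
    constructor
    · rintro (⟨_, _, hg⟩ | ⟨h1, h2, hg⟩ | ⟨h1, _, _⟩)
      · exact hg
      · exact (h s1 t1 hs1 h1 ht1 h2).2 hg
      · exact absurd ⟨hs1, ht1⟩ h1
    · intro hg
      exact Or.inl ⟨hs1, ht1, hg⟩
  · intro s1 hs1 t1 ht1
    constructor
    · rintro (⟨h1, h2, hg⟩ | ⟨_, _, hg⟩ | ⟨_, h1, _⟩)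
      · exact (h s1 t1 h1 hs1 h2 ht1).1 hg
      · exact hg
      · exact absurd ⟨hs1, ht1⟩ h1
    · intro hg
      exact Or.inr (Or.inl ⟨hs1, ht1, hg⟩)
  · constructor
    · rintro (⟨_, h1, _⟩ | ⟨h1, _, _⟩ | ⟨_, _, hv⟩)
      · exact absurd h1 ht'
      · exact absurd h1 hs'
      · exact hv
    · intro hv
      exact Or.inr (Or.inr ⟨fun h1 => ht' h1.2, fun h1 => hs' h1.1, hv⟩)

/-! ## The closure -/

/-- Labels of the operations. -/
abbrev Lab : Type := Option ((ℕ → ℕ) × Set ℕ × Set (ℕ × ℕ))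

/-- Arities. -/
def Ari : Lab → Type
  | none => PEmpty
  | some _ => ℕ

theorem card_lab : #Lab ≤ 𝔠 := by
  have h1 : #((ℕ → ℕ) × Set ℕ × Set (ℕ × ℕ)) ≤ 𝔠 := by
    have e1 : #(ℕ → ℕ) = 𝔠 := by simp
    have e2 : #(Set ℕ) = 𝔠 := by simp
    have e3 : #(Set (ℕ × ℕ)) = 𝔠 := by simp
    rw [mk_prod, mk_prod, lift_id, lift_id, lift_id, lift_id, e1, e2, e3, continuum_mul_self,
      continuum_mul_self]
  rw [mk_option]
  exact (add_le_add h1 (one_lt_aleph0.le.trans aleph0_le_continuum)).trans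
    (by rw [continuum_add_self])

theorem card_ari (l : Lab) : #(Ari l) ≤ ℵ₀ := by
  cases l with
  | none => exact (mk_eq_zero PEmpty).le.trans (by simp)
  | some l => exact mk_nat.le

theorem card_tree : #(WType Ari) ≤ 𝔠 := by
  refine WType.cardinalMk_le_of_le' ?_
  have h1 : ∀ l : Lab, (𝔠 : Cardinal.{0}) ^ lift.{0} #(Ari l) ≤ 𝔠 := fun l => by
    rw [lift_uzero]
    refine (power_le_power_left continuum_ne_zero (card_ari l)).trans ?_
    rw [continuum_power_aleph0]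
  refine (sum_le_sum _ _ h1).trans ?_
  rw [sum_const']
  exact (mul_le_mul_left card_lab _).trans (by rw [continuum_mul_self])

variable (x : K → Cd K) (e : K → ℕ → K) (k0 : K)

/-- `t` is a suitable value. -/
def Good (r : ℕ → K) (I : Set ℕ) (h : Set (ℕ × ℕ)) (t : K) : Prop :=
  (∀ i ∈ I, r i ∈ (x t).a ∧ r i ≠ t) ∧ ∀ i ∈ I, ∀ j ∈ I, ((x t).g (r i) (r j) ↔ (i, j) ∈ h)

open Classical in
/-- The operations. -/
noncomputable def opr' : (l : Lab) → (Ari l → K) → K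
  | none, _ => k0
  | some (j, I, h), f =>
    if H : ∃ t, Good x (fun i => e (f i) (j i)) I h t then H.choose else k0

/-- The value of a tree. -/
noncomputable def ev : WType Ari → K := WType.elim K fun t => opr' x e k0 t.1 t.2

theorem ev_mk (l : Lab) (f : Ari l → WType Ari) :
    ev x e k0 (WType.mk l f) = opr' x e k0 l fun i => ev x e k0 (f i) := rfl

open Classical in
theorem good_ev (j : ℕ → ℕ) (I : Set ℕ) (h : Set (ℕ × ℕ)) (w : ℕ → WType Ari)
    (H : ∃ t, Good x (fun i => e (ev x e k0 (w i)) (j i)) I h t) :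
    Good x (fun i => e (ev x e k0 (w i)) (j i)) I h
      (ev x e k0 (WType.mk (some (j, I, h) : Lab) w)) := by
  rw [ev_mk]
  change Good x _ I h (if H : ∃ t, Good x (fun i => e (ev x e k0 (w i)) (j i)) I h t
    then H.choose else k0)
  rw [dif_pos H]
  exact H.choose_spec

/-- The pair lemma. -/
theorem pair (hK : continuum.{u} < #K) (x : K → Cd K) (hx : ∀ s, s ∈ (x s).a) :
    ∃ s t : K, ∀ v : Prop, ∃ z : Cd K, z ≤ x s ∧ z ≤ x t ∧ s ∈ z.a ∧ t ∈ z.a ∧ (z.g s t ↔ v) := by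
  classical
  have he : ∀ s, ∃ f : ℕ → K, (x s).a = Set.range f := fun s =>
    (x s).ctble.exists_eq_range ⟨s, hx s⟩
  choose e he using he
  obtain ⟨k0⟩ : Nonempty K := by
    rw [← mk_ne_zero_iff]
    intro h0
    rw [h0] at hK
    exact not_lt_bot hK
  let Z : Set K := ⋃ w : WType Ari, (x (ev x e k0 w)).a
  have hZ : Z = Set.range fun p : WType Ari × ℕ => e (ev x e k0 p.1) p.2 := by
    ext s
    simp only [Z, Set.mem_iUnion, he, Set.mem_range, Prod.exists]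
  have hZc : #Z ≤ continuum.{u} := by
    rw [hZ]
    have h1 := mk_range_le_lift (f := fun p : WType Ari × ℕ => e (ev x e k0 p.1) p.2)
    rw [lift_uzero] at h1
    refine h1.trans ?_
    have h2 : #(WType Ari × ℕ) ≤ 𝔠 := by
      rw [mk_prod, lift_id, lift_id, mk_nat]
      exact (mul_le_mul' card_tree aleph0_le_continuum).trans (by rw [continuum_mul_self])
    have h3 := lift_le.{u}.2 h2
    rwa [lift_continuum] at h3
  obtain ⟨s, hs⟩ : ∃ s, s ∉ Z := by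
    by_contra hcon
    push Not at hcon
    have h1 : Z = Set.univ := Set.eq_univ_of_forall hcon
    rw [h1, mk_univ] at hZc
    exact absurd hK (not_lt.2 hZc)
  -- enumeration of `(x s).a ∩ Z`
  have hR : ∃ (w : ℕ → WType Ari) (j : ℕ → ℕ) (I : Set ℕ),
      (∀ i ∈ I, e (ev x e k0 (w i)) (j i) ∈ (x s).a ∩ Z) ∧
      ∀ r ∈ (x s).a ∩ Z, ∃ i ∈ I, e (ev x e k0 (w i)) (j i) = r := by
    rcases ((x s).a ∩ Z).eq_empty_or_nonempty with h | h
    · refine ⟨fun _ => WType.mk none PEmpty.elim, fun _ => 0, ∅, fun i hi => hi.elim, ?_⟩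
      rw [h]
      exact fun r hr => hr.elim
    · obtain ⟨f, hf⟩ := ((x s).ctble.mono Set.inter_subset_left).exists_eq_range h
      have h1 : ∀ i, ∃ p : WType Ari × ℕ, e (ev x e k0 p.1) p.2 = f i := by
        intro i
        have h2 : f i ∈ Z := by
          have : f i ∈ (x s).a ∩ Z := by rw [hf]; exact ⟨i, rfl⟩
          exact this.2
        rw [hZ] at h2
        exact h2
      choose p hp using h1
      refine ⟨fun i => (p i).1, fun i => (p i).2, Set.univ, fun i _ => ?_, fun r hr => ?_⟩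
      · rw [hp, hf]; exact ⟨i, rfl⟩
      · rw [hf] at hr
        obtain ⟨i, rfl⟩ := hr
        exact ⟨i, trivial, hp i⟩
  obtain ⟨w, j, I, hI, hI'⟩ := hR
  have hgood : Good x (fun i => e (ev x e k0 (w i)) (j i)) I
      {q | (x s).g (e (ev x e k0 (w q.1)) (j q.1)) (e (ev x e k0 (w q.2)) (j q.2))} s := by
    refine ⟨fun i hi => ⟨(hI i hi).1, ?_⟩, fun i _ j _ => Iff.rfl⟩
    intro h
    exact hs (h ▸ (hI i hi).2)
  have h2 := good_ev x e k0 j I _ w ⟨s, hgood⟩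
  set w' : WType Ari := WType.mk (some (j, I, {q | (x s).g (e (ev x e k0 (w q.1)) (j q.1))
    (e (ev x e k0 (w q.2)) (j q.2))}) : Lab) w with hw'
  set t := ev x e k0 w' with ht
  have htZ : (x t).a ⊆ Z := fun r hr => Set.mem_iUnion.2 ⟨w', hr⟩
  have hst : s ∉ (x t).a := fun h => hs (htZ h)
  have hts : t ∉ (x s).a := by
    intro h
    obtain ⟨i, hi, hit⟩ := hI' t ⟨h, htZ (hx t)⟩
    exact (h2.1 i hi).2 hit
  refine ⟨s, t, fun v => exists_glue (x s) (x t) ?_ s t (hx s) (hx t) hst hts v⟩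
  intro a b has hat hbs hbt
  obtain ⟨i, hi, rfl⟩ := hI' a ⟨has, htZ hat⟩
  obtain ⟨i', hi', rfl⟩ := hI' b ⟨hbs, htZ hbt⟩
  exact (h2.2 i hi i' hi').symm

end Pool.Agent.Lib.MP_6b029b_lc.H57
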