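import Pool.Agent.Lib.MP_6b029b_lc.H57.Los

/-!
# Transfer of the notions of the theorem to the two-valued quotient
-/

universe u v w

open scoped symmDiff

namespace Pool.Agent.Lib.MP_6b029b_lc.H57

open Pool.Agent.Lib.MP_100a6c_lc Pool.Agent.Lib.MP_c5d73d_lc.F BName

variable {B : Type u} [CompleteBooleanAlgebra B] {G : Set B} [hG : Fact (IsUlt G)]
  {V V' : Type (u + 1)} [Ctx G V V']

theorem tf_sub {s1 s2 : V → BName B} {s1' s2' : V' → Ml G} (h1 : Mor G s1 s1') (h2 : Mor G s2 s2') :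
    Tf G (fun v => (VB B).sub (s1 v) (s2 v)) (fun v' => (QS G).sub (s1' v') (s2' v')) := by
  unfold Str.sub
  repeat' first
    | exact Mor.id
    | refine Mor.snd ?_
    | refine Mor.fst ?_
    | refine Mor.comp h1 ?_
    | refine Mor.comp h2 ?_
    | refine Tf.mem ?_ ?_
    | refine Tf.eq ?_ ?_
    | refine Tf.inf ?_ ?_
    | refine Tf.sup ?_ ?_
    | refine Tf.bihimp ?_ ?_
    | refine Tf.himp ?_ ?_
    | refine Tf.compl ?_
    | refine Tf.iInf ?_
    | refine Tf.iSup ?_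

theorem tf_isUPair {s1 s2 s3 : V → BName B} {s1' s2' s3' : V' → Ml G} (h1 : Mor G s1 s1') (h2 : Mor G s2 s2') (h3 : Mor G s3 s3') :
    Tf G (fun v => (VB B).isUPair (s1 v) (s2 v) (s3 v)) (fun v' => (QS G).isUPair (s1' v') (s2' v') (s3' v')) := by
  unfold Str.isUPair
  repeat' first
    | exact Mor.id
    | refine Mor.snd ?_
    | refine Mor.fst ?_
    | refine Mor.comp h1 ?_
    | refine Mor.comp h2 ?_
    | refine Mor.comp h3 ?_
    | refine Tf.mem ?_ ?_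
    | refine Tf.eq ?_ ?_
    | refine tf_sub ?_ ?_
    | refine Tf.inf ?_ ?_
    | refine Tf.sup ?_ ?_
    | refine Tf.bihimp ?_ ?_
    | refine Tf.himp ?_ ?_
    | refine Tf.compl ?_
    | refine Tf.iInf ?_
    | refine Tf.iSup ?_

theorem tf_isPair {s1 s2 s3 : V → BName B} {s1' s2' s3' : V' → Ml G} (h1 : Mor G s1 s1') (h2 : Mor G s2 s2') (h3 : Mor G s3 s3') :
    Tf G (fun v => (VB B).isPair (s1 v) (s2 v) (s3 v)) (fun v' => (QS G).isPair (s1' v') (s2' v') (s3' v')) := by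
  unfold Str.isPair
  repeat' first
    | exact Mor.id
    | refine Mor.snd ?_
    | refine Mor.fst ?_
    | refine Mor.comp h1 ?_
    | refine Mor.comp h2 ?_
    | refine Mor.comp h3 ?_
    | refine Tf.mem ?_ ?_
    | refine Tf.eq ?_ ?_
    | refine tf_isUPair ?_ ?_ ?_
    | refine tf_sub ?_ ?_
    | refine Tf.inf ?_ ?_
    | refine Tf.sup ?_ ?_
    | refine Tf.bihimp ?_ ?_
    | refine Tf.himp ?_ ?_
    | refine Tf.compl ?_
    | refine Tf.iInf ?_
    | refine Tf.iSup ?_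

theorem tf_rel {s1 s2 s3 : V → BName B} {s1' s2' s3' : V' → Ml G} (h1 : Mor G s1 s1') (h2 : Mor G s2 s2') (h3 : Mor G s3 s3') :
    Tf G (fun v => (VB B).rel (s1 v) (s2 v) (s3 v)) (fun v' => (QS G).rel (s1' v') (s2' v') (s3' v')) := by
  unfold Str.rel
  repeat' first
    | exact Mor.id
    | refine Mor.snd ?_
    | refine Mor.fst ?_
    | refine Mor.comp h1 ?_
    | refine Mor.comp h2 ?_
    | refine Mor.comp h3 ?_
    | refine Tf.mem ?_ ?_
    | refine Tf.eq ?_ ?_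
    | refine tf_isPair ?_ ?_ ?_
    | refine tf_isUPair ?_ ?_ ?_
    | refine tf_sub ?_ ?_
    | refine Tf.inf ?_ ?_
    | refine Tf.sup ?_ ?_
    | refine Tf.bihimp ?_ ?_
    | refine Tf.himp ?_ ?_
    | refine Tf.compl ?_
    | refine Tf.iInf ?_
    | refine Tf.iSup ?_

theorem tf_leCard {s1 s2 : V → BName B} {s1' s2' : V' → Ml G} (h1 : Mor G s1 s1') (h2 : Mor G s2 s2') :
    Tf G (fun v => (VB B).leCard (s1 v) (s2 v)) (fun v' => (QS G).leCard (s1' v') (s2' v')) := by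
  unfold Str.leCard
  repeat' first
    | exact Mor.id
    | refine Mor.snd ?_
    | refine Mor.fst ?_
    | refine Mor.comp h1 ?_
    | refine Mor.comp h2 ?_
    | refine Tf.mem ?_ ?_
    | refine Tf.eq ?_ ?_
    | refine tf_rel ?_ ?_ ?_
    | refine tf_isPair ?_ ?_ ?_
    | refine tf_isUPair ?_ ?_ ?_
    | refine tf_sub ?_ ?_
    | refine Tf.inf ?_ ?_
    | refine Tf.sup ?_ ?_
    | refine Tf.bihimp ?_ ?_
    | refine Tf.himp ?_ ?_
    | refine Tf.compl ?_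
    | refine Tf.iInf ?_
    | refine Tf.iSup ?_

theorem tf_isTrans {s1 : V → BName B} {s1' : V' → Ml G} (h1 : Mor G s1 s1') :
    Tf G (fun v => (VB B).isTrans (s1 v)) (fun v' => (QS G).isTrans (s1' v')) := by
  unfold Str.isTrans
  repeat' first
    | exact Mor.id
    | refine Mor.snd ?_
    | refine Mor.fst ?_
    | refine Mor.comp h1 ?_
    | refine Tf.mem ?_ ?_
    | refine Tf.eq ?_ ?_
    | refine tf_leCard ?_ ?_
    | refine tf_rel ?_ ?_ ?_
    | refine tf_isPair ?_ ?_ ?_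
    | refine tf_isUPair ?_ ?_ ?_
    | refine tf_sub ?_ ?_
    | refine Tf.inf ?_ ?_
    | refine Tf.sup ?_ ?_
    | refine Tf.bihimp ?_ ?_
    | refine Tf.himp ?_ ?_
    | refine Tf.compl ?_
    | refine Tf.iInf ?_
    | refine Tf.iSup ?_

theorem tf_isOrd {s1 : V → BName B} {s1' : V' → Ml G} (h1 : Mor G s1 s1') :
    Tf G (fun v => (VB B).isOrd (s1 v)) (fun v' => (QS G).isOrd (s1' v')) := by
  unfold Str.isOrd
  repeat' first
    | exact Mor.id
    | refine Mor.snd ?_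
    | refine Mor.fst ?_
    | refine Mor.comp h1 ?_
    | refine Tf.mem ?_ ?_
    | refine Tf.eq ?_ ?_
    | refine tf_isTrans ?_
    | refine tf_leCard ?_ ?_
    | refine tf_rel ?_ ?_ ?_
    | refine tf_isPair ?_ ?_ ?_
    | refine tf_isUPair ?_ ?_ ?_
    | refine tf_sub ?_ ?_
    | refine Tf.inf ?_ ?_
    | refine Tf.sup ?_ ?_
    | refine Tf.bihimp ?_ ?_
    | refine Tf.himp ?_ ?_
    | refine Tf.compl ?_
    | refine Tf.iInf ?_
    | refine Tf.iSup ?_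

theorem tf_isFun {s1 s2 s3 : V → BName B} {s1' s2' s3' : V' → Ml G} (h1 : Mor G s1 s1') (h2 : Mor G s2 s2') (h3 : Mor G s3 s3') :
    Tf G (fun v => (VB B).isFun (s1 v) (s2 v) (s3 v)) (fun v' => (QS G).isFun (s1' v') (s2' v') (s3' v')) := by
  unfold Str.isFun
  repeat' first
    | exact Mor.id
    | refine Mor.snd ?_
    | refine Mor.fst ?_
    | refine Mor.comp h1 ?_
    | refine Mor.comp h2 ?_
    | refine Mor.comp h3 ?_
    | refine Tf.mem ?_ ?_
    | refine Tf.eq ?_ ?_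
    | refine tf_isOrd ?_
    | refine tf_isTrans ?_
    | refine tf_leCard ?_ ?_
    | refine tf_rel ?_ ?_ ?_
    | refine tf_isPair ?_ ?_ ?_
    | refine tf_isUPair ?_ ?_ ?_
    | refine tf_sub ?_ ?_
    | refine Tf.inf ?_ ?_
    | refine Tf.sup ?_ ?_
    | refine Tf.bihimp ?_ ?_
    | refine Tf.himp ?_ ?_
    | refine Tf.compl ?_
    | refine Tf.iInf ?_
    | refine Tf.iSup ?_

theorem tf_isEmpty {s1 : V → BName B} {s1' : V' → Ml G} (h1 : Mor G s1 s1') :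
    Tf G (fun v => isEmpty (VB B) (s1 v)) (fun v' => isEmpty (QS G) (s1' v')) := by
  unfold isEmpty
  repeat' first
    | exact Mor.id
    | refine Mor.snd ?_
    | refine Mor.fst ?_
    | refine Mor.comp h1 ?_
    | refine Tf.mem ?_ ?_
    | refine Tf.eq ?_ ?_
    | refine tf_isFun ?_ ?_ ?_
    | refine tf_isOrd ?_
    | refine tf_isTrans ?_
    | refine tf_leCard ?_ ?_
    | refine tf_rel ?_ ?_ ?_
    | refine tf_isPair ?_ ?_ ?_
    | refine tf_isUPair ?_ ?_ ?_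
    | refine tf_sub ?_ ?_
    | refine Tf.inf ?_ ?_
    | refine Tf.sup ?_ ?_
    | refine Tf.bihimp ?_ ?_
    | refine Tf.himp ?_ ?_
    | refine Tf.compl ?_
    | refine Tf.iInf ?_
    | refine Tf.iSup ?_

theorem tf_isSuc {s1 s2 : V → BName B} {s1' s2' : V' → Ml G} (h1 : Mor G s1 s1') (h2 : Mor G s2 s2') :
    Tf G (fun v => isSuc (VB B) (s1 v) (s2 v)) (fun v' => isSuc (QS G) (s1' v') (s2' v')) := by
  unfold isSuc
  repeat' first
    | exact Mor.id
    | refine Mor.snd ?_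
    | refine Mor.fst ?_
    | refine Mor.comp h1 ?_
    | refine Mor.comp h2 ?_
    | refine Tf.mem ?_ ?_
    | refine Tf.eq ?_ ?_
    | refine tf_isEmpty ?_
    | refine tf_isFun ?_ ?_ ?_
    | refine tf_isOrd ?_
    | refine tf_isTrans ?_
    | refine tf_leCard ?_ ?_
    | refine tf_rel ?_ ?_ ?_
    | refine tf_isPair ?_ ?_ ?_
    | refine tf_isUPair ?_ ?_ ?_
    | refine tf_sub ?_ ?_
    | refine Tf.inf ?_ ?_
    | refine Tf.sup ?_ ?_
    | refine Tf.bihimp ?_ ?_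
    | refine Tf.himp ?_ ?_
    | refine Tf.compl ?_
    | refine Tf.iInf ?_
    | refine Tf.iSup ?_

theorem tf_isOm {s1 : V → BName B} {s1' : V' → Ml G} (h1 : Mor G s1 s1') :
    Tf G (fun v => isOm (VB B) (s1 v)) (fun v' => isOm (QS G) (s1' v')) := by
  unfold isOm
  repeat' first
    | exact Mor.id
    | refine Mor.snd ?_
    | refine Mor.fst ?_
    | refine Mor.comp h1 ?_
    | refine Tf.mem ?_ ?_
    | refine Tf.eq ?_ ?_
    | refine tf_isSuc ?_ ?_
    | refine tf_isEmpty ?_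
    | refine tf_isFun ?_ ?_ ?_
    | refine tf_isOrd ?_
    | refine tf_isTrans ?_
    | refine tf_leCard ?_ ?_
    | refine tf_rel ?_ ?_ ?_
    | refine tf_isPair ?_ ?_ ?_
    | refine tf_isUPair ?_ ?_ ?_
    | refine tf_sub ?_ ?_
    | refine Tf.inf ?_ ?_
    | refine Tf.sup ?_ ?_
    | refine Tf.bihimp ?_ ?_
    | refine Tf.himp ?_ ?_
    | refine Tf.compl ?_
    | refine Tf.iInf ?_
    | refine Tf.iSup ?_

theorem tf_isPow {s1 s2 : V → BName B} {s1' s2' : V' → Ml G} (h1 : Mor G s1 s1') (h2 : Mor G s2 s2') :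
    Tf G (fun v => isPow (VB B) (s1 v) (s2 v)) (fun v' => isPow (QS G) (s1' v') (s2' v')) := by
  unfold isPow
  repeat' first
    | exact Mor.id
    | refine Mor.snd ?_
    | refine Mor.fst ?_
    | refine Mor.comp h1 ?_
    | refine Mor.comp h2 ?_
    | refine Tf.mem ?_ ?_
    | refine Tf.eq ?_ ?_
    | refine tf_isOm ?_
    | refine tf_isSuc ?_ ?_
    | refine tf_isEmpty ?_
    | refine tf_isFun ?_ ?_ ?_
    | refine tf_isOrd ?_
    | refine tf_isTrans ?_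
    | refine tf_leCard ?_ ?_
    | refine tf_rel ?_ ?_ ?_
    | refine tf_isPair ?_ ?_ ?_
    | refine tf_isUPair ?_ ?_ ?_
    | refine tf_sub ?_ ?_
    | refine Tf.inf ?_ ?_
    | refine Tf.sup ?_ ?_
    | refine Tf.bihimp ?_ ?_
    | refine Tf.himp ?_ ?_
    | refine Tf.compl ?_
    | refine Tf.iInf ?_
    | refine Tf.iSup ?_

theorem tf_isInter {s1 s2 s3 : V → BName B} {s1' s2' s3' : V' → Ml G} (h1 : Mor G s1 s1') (h2 : Mor G s2 s2') (h3 : Mor G s3 s3') :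
    Tf G (fun v => isInter (VB B) (s1 v) (s2 v) (s3 v)) (fun v' => isInter (QS G) (s1' v') (s2' v') (s3' v')) := by
  unfold isInter
  repeat' first
    | exact Mor.id
    | refine Mor.snd ?_
    | refine Mor.fst ?_
    | refine Mor.comp h1 ?_
    | refine Mor.comp h2 ?_
    | refine Mor.comp h3 ?_
    | refine Tf.mem ?_ ?_
    | refine Tf.eq ?_ ?_
    | refine tf_isPow ?_ ?_
    | refine tf_isOm ?_
    | refine tf_isSuc ?_ ?_
    | refine tf_isEmpty ?_
    | refine tf_isFun ?_ ?_ ?_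
    | refine tf_isOrd ?_
    | refine tf_isTrans ?_
    | refine tf_leCard ?_ ?_
    | refine tf_rel ?_ ?_ ?_
    | refine tf_isPair ?_ ?_ ?_
    | refine tf_isUPair ?_ ?_ ?_
    | refine tf_sub ?_ ?_
    | refine Tf.inf ?_ ?_
    | refine Tf.sup ?_ ?_
    | refine Tf.bihimp ?_ ?_
    | refine Tf.himp ?_ ?_
    | refine Tf.compl ?_
    | refine Tf.iInf ?_
    | refine Tf.iSup ?_

theorem tf_isDiff {s1 s2 s3 : V → BName B} {s1' s2' s3' : V' → Ml G} (h1 : Mor G s1 s1') (h2 : Mor G s2 s2') (h3 : Mor G s3 s3') :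
    Tf G (fun v => isDiff (VB B) (s1 v) (s2 v) (s3 v)) (fun v' => isDiff (QS G) (s1' v') (s2' v') (s3' v')) := by
  unfold isDiff
  repeat' first
    | exact Mor.id
    | refine Mor.snd ?_
    | refine Mor.fst ?_
    | refine Mor.comp h1 ?_
    | refine Mor.comp h2 ?_
    | refine Mor.comp h3 ?_
    | refine Tf.mem ?_ ?_
    | refine Tf.eq ?_ ?_
    | refine tf_isInter ?_ ?_ ?_
    | refine tf_isPow ?_ ?_
    | refine tf_isOm ?_
    | refine tf_isSuc ?_ ?_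
    | refine tf_isEmpty ?_
    | refine tf_isFun ?_ ?_ ?_
    | refine tf_isOrd ?_
    | refine tf_isTrans ?_
    | refine tf_leCard ?_ ?_
    | refine tf_rel ?_ ?_ ?_
    | refine tf_isPair ?_ ?_ ?_
    | refine tf_isUPair ?_ ?_ ?_
    | refine tf_sub ?_ ?_
    | refine Tf.inf ?_ ?_
    | refine Tf.sup ?_ ?_
    | refine Tf.bihimp ?_ ?_
    | refine Tf.himp ?_ ?_
    | refine Tf.compl ?_
    | refine Tf.iInf ?_
    | refine Tf.iSup ?_

theorem tf_isNPU {s1 s2 : V → BName B} {s1' s2' : V' → Ml G} (h1 : Mor G s1 s1') (h2 : Mor G s2 s2') :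
    Tf G (fun v => isNPU (VB B) (s1 v) (s2 v)) (fun v' => isNPU (QS G) (s1' v') (s2' v')) := by
  unfold isNPU
  repeat' first
    | exact Mor.id
    | refine Mor.snd ?_
    | refine Mor.fst ?_
    | refine Mor.comp h1 ?_
    | refine Mor.comp h2 ?_
    | refine Tf.mem ?_ ?_
    | refine Tf.eq ?_ ?_
    | refine tf_isDiff ?_ ?_ ?_
    | refine tf_isInter ?_ ?_ ?_
    | refine tf_isPow ?_ ?_
    | refine tf_isOm ?_
    | refine tf_isSuc ?_ ?_
    | refine tf_isEmpty ?_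
    | refine tf_isFun ?_ ?_ ?_
    | refine tf_isOrd ?_
    | refine tf_isTrans ?_
    | refine tf_leCard ?_ ?_
    | refine tf_rel ?_ ?_ ?_
    | refine tf_isPair ?_ ?_ ?_
    | refine tf_isUPair ?_ ?_ ?_
    | refine tf_sub ?_ ?_
    | refine Tf.inf ?_ ?_
    | refine Tf.sup ?_ ?_
    | refine Tf.bihimp ?_ ?_
    | refine Tf.himp ?_ ?_
    | refine Tf.compl ?_
    | refine Tf.iInf ?_
    | refine Tf.iSup ?_

theorem tf_isPoset {s1 s2 : V → BName B} {s1' s2' : V' → Ml G} (h1 : Mor G s1 s1') (h2 : Mor G s2 s2') :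
    Tf G (fun v => isPoset (VB B) (s1 v) (s2 v)) (fun v' => isPoset (QS G) (s1' v') (s2' v')) := by
  unfold isPoset
  repeat' first
    | exact Mor.id
    | refine Mor.snd ?_
    | refine Mor.fst ?_
    | refine Mor.comp h1 ?_
    | refine Mor.comp h2 ?_
    | refine Tf.mem ?_ ?_
    | refine Tf.eq ?_ ?_
    | refine tf_isNPU ?_ ?_
    | refine tf_isDiff ?_ ?_ ?_
    | refine tf_isInter ?_ ?_ ?_
    | refine tf_isPow ?_ ?_
    | refine tf_isOm ?_
    | refine tf_isSuc ?_ ?_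
    | refine tf_isEmpty ?_
    | refine tf_isFun ?_ ?_ ?_
    | refine tf_isOrd ?_
    | refine tf_isTrans ?_
    | refine tf_leCard ?_ ?_
    | refine tf_rel ?_ ?_ ?_
    | refine tf_isPair ?_ ?_ ?_
    | refine tf_isUPair ?_ ?_ ?_
    | refine tf_sub ?_ ?_
    | refine Tf.inf ?_ ?_
    | refine Tf.sup ?_ ?_
    | refine Tf.bihimp ?_ ?_
    | refine Tf.himp ?_ ?_
    | refine Tf.compl ?_
    | refine Tf.iInf ?_
    | refine Tf.iSup ?_

theorem tf_eqU {s1 s2 s3 s4 : V → BName B} {s1' s2' s3' s4' : V' → Ml G} (h1 : Mor G s1 s1') (h2 : Mor G s2 s2') (h3 : Mor G s3 s3') (h4 : Mor G s4 s4') :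
    Tf G (fun v => eqU (VB B) (s1 v) (s2 v) (s3 v) (s4 v)) (fun v' => eqU (QS G) (s1' v') (s2' v') (s3' v') (s4' v')) := by
  unfold eqU
  repeat' first
    | exact Mor.id
    | refine Mor.snd ?_
    | refine Mor.fst ?_
    | refine Mor.comp h1 ?_
    | refine Mor.comp h2 ?_
    | refine Mor.comp h3 ?_
    | refine Mor.comp h4 ?_
    | refine Tf.mem ?_ ?_
    | refine Tf.eq ?_ ?_
    | refine tf_isPoset ?_ ?_
    | refine tf_isNPU ?_ ?_
    | refine tf_isDiff ?_ ?_ ?_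
    | refine tf_isInter ?_ ?_ ?_
    | refine tf_isPow ?_ ?_
    | refine tf_isOm ?_
    | refine tf_isSuc ?_ ?_
    | refine tf_isEmpty ?_
    | refine tf_isFun ?_ ?_ ?_
    | refine tf_isOrd ?_
    | refine tf_isTrans ?_
    | refine tf_leCard ?_ ?_
    | refine tf_rel ?_ ?_ ?_
    | refine tf_isPair ?_ ?_ ?_
    | refine tf_isUPair ?_ ?_ ?_
    | refine tf_sub ?_ ?_
    | refine Tf.inf ?_ ?_
    | refine Tf.sup ?_ ?_
    | refine Tf.bihimp ?_ ?_
    | refine Tf.himp ?_ ?_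
    | refine Tf.compl ?_
    | refine Tf.iInf ?_
    | refine Tf.iSup ?_

theorem tf_leU {s1 s2 s3 s4 : V → BName B} {s1' s2' s3' s4' : V' → Ml G} (h1 : Mor G s1 s1') (h2 : Mor G s2 s2') (h3 : Mor G s3 s3') (h4 : Mor G s4 s4') :
    Tf G (fun v => leU (VB B) (s1 v) (s2 v) (s3 v) (s4 v)) (fun v' => leU (QS G) (s1' v') (s2' v') (s3' v') (s4' v')) := by
  unfold leU
  repeat' first
    | exact Mor.id
    | refine Mor.snd ?_
    | refine Mor.fst ?_
    | refine Mor.comp h1 ?_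
    | refine Mor.comp h2 ?_
    | refine Mor.comp h3 ?_
    | refine Mor.comp h4 ?_
    | refine Tf.mem ?_ ?_
    | refine Tf.eq ?_ ?_
    | refine tf_eqU ?_ ?_ ?_ ?_
    | refine tf_isPoset ?_ ?_
    | refine tf_isNPU ?_ ?_
    | refine tf_isDiff ?_ ?_ ?_
    | refine tf_isInter ?_ ?_ ?_
    | refine tf_isPow ?_ ?_
    | refine tf_isOm ?_
    | refine tf_isSuc ?_ ?_
    | refine tf_isEmpty ?_
    | refine tf_isFun ?_ ?_ ?_
    | refine tf_isOrd ?_
    | refine tf_isTrans ?_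
    | refine tf_leCard ?_ ?_
    | refine tf_rel ?_ ?_ ?_
    | refine tf_isPair ?_ ?_ ?_
    | refine tf_isUPair ?_ ?_ ?_
    | refine tf_sub ?_ ?_
    | refine Tf.inf ?_ ?_
    | refine Tf.sup ?_ ?_
    | refine Tf.bihimp ?_ ?_
    | refine Tf.himp ?_ ?_
    | refine Tf.compl ?_
    | refine Tf.iInf ?_
    | refine Tf.iSup ?_

theorem tf_isCls {s1 s2 s3 s4 s5 : V → BName B} {s1' s2' s3' s4' s5' : V' → Ml G} (h1 : Mor G s1 s1') (h2 : Mor G s2 s2') (h3 : Mor G s3 s3') (h4 : Mor G s4 s4') (h5 : Mor G s5 s5') :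
    Tf G (fun v => isCls (VB B) (s1 v) (s2 v) (s3 v) (s4 v) (s5 v)) (fun v' => isCls (QS G) (s1' v') (s2' v') (s3' v') (s4' v') (s5' v')) := by
  unfold isCls
  repeat' first
    | exact Mor.id
    | refine Mor.snd ?_
    | refine Mor.fst ?_
    | refine Mor.comp h1 ?_
    | refine Mor.comp h2 ?_
    | refine Mor.comp h3 ?_
    | refine Mor.comp h4 ?_
    | refine Mor.comp h5 ?_
    | refine Tf.mem ?_ ?_
    | refine Tf.eq ?_ ?_
    | refine tf_leU ?_ ?_ ?_ ?_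
    | refine tf_eqU ?_ ?_ ?_ ?_
    | refine tf_isPoset ?_ ?_
    | refine tf_isNPU ?_ ?_
    | refine tf_isDiff ?_ ?_ ?_
    | refine tf_isInter ?_ ?_ ?_
    | refine tf_isPow ?_ ?_
    | refine tf_isOm ?_
    | refine tf_isSuc ?_ ?_
    | refine tf_isEmpty ?_
    | refine tf_isFun ?_ ?_ ?_
    | refine tf_isOrd ?_
    | refine tf_isTrans ?_
    | refine tf_leCard ?_ ?_
    | refine tf_rel ?_ ?_ ?_
    | refine tf_isPair ?_ ?_ ?_
    | refine tf_isUPair ?_ ?_ ?_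
    | refine tf_sub ?_ ?_
    | refine Tf.inf ?_ ?_
    | refine Tf.sup ?_ ?_
    | refine Tf.bihimp ?_ ?_
    | refine Tf.himp ?_ ?_
    | refine Tf.compl ?_
    | refine Tf.iInf ?_
    | refine Tf.iSup ?_

theorem tf_isUpw {s1 s2 s3 s4 : V → BName B} {s1' s2' s3' s4' : V' → Ml G} (h1 : Mor G s1 s1') (h2 : Mor G s2 s2') (h3 : Mor G s3 s3') (h4 : Mor G s4 s4') :
    Tf G (fun v => isUpw (VB B) (s1 v) (s2 v) (s3 v) (s4 v)) (fun v' => isUpw (QS G) (s1' v') (s2' v') (s3' v') (s4' v')) := by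
  unfold isUpw
  repeat' first
    | exact Mor.id
    | refine Mor.snd ?_
    | refine Mor.fst ?_
    | refine Mor.comp h1 ?_
    | refine Mor.comp h2 ?_
    | refine Mor.comp h3 ?_
    | refine Mor.comp h4 ?_
    | refine Tf.mem ?_ ?_
    | refine Tf.eq ?_ ?_
    | refine tf_isCls ?_ ?_ ?_ ?_ ?_
    | refine tf_leU ?_ ?_ ?_ ?_
    | refine tf_eqU ?_ ?_ ?_ ?_
    | refine tf_isPoset ?_ ?_
    | refine tf_isNPU ?_ ?_
    | refine tf_isDiff ?_ ?_ ?_
    | refine tf_isInter ?_ ?_ ?_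
    | refine tf_isPow ?_ ?_
    | refine tf_isOm ?_
    | refine tf_isSuc ?_ ?_
    | refine tf_isEmpty ?_
    | refine tf_isFun ?_ ?_ ?_
    | refine tf_isOrd ?_
    | refine tf_isTrans ?_
    | refine tf_leCard ?_ ?_
    | refine tf_rel ?_ ?_ ?_
    | refine tf_isPair ?_ ?_ ?_
    | refine tf_isUPair ?_ ?_ ?_
    | refine tf_sub ?_ ?_
    | refine Tf.inf ?_ ?_
    | refine Tf.sup ?_ ?_
    | refine Tf.bihimp ?_ ?_
    | refine Tf.himp ?_ ?_
    | refine Tf.compl ?_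
    | refine Tf.iInf ?_
    | refine Tf.iSup ?_

theorem tf_leW {s1 s2 s3 s4 : V → BName B} {s1' s2' s3' s4' : V' → Ml G} (h1 : Mor G s1 s1') (h2 : Mor G s2 s2') (h3 : Mor G s3 s3') (h4 : Mor G s4 s4') :
    Tf G (fun v => leW (VB B) (s1 v) (s2 v) (s3 v) (s4 v)) (fun v' => leW (QS G) (s1' v') (s2' v') (s3' v') (s4' v')) := by
  unfold leW
  repeat' first
    | exact Mor.id
    | refine Mor.snd ?_
    | refine Mor.fst ?_
    | refine Mor.comp h1 ?_
    | refine Mor.comp h2 ?_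
    | refine Mor.comp h3 ?_
    | refine Mor.comp h4 ?_
    | refine Tf.mem ?_ ?_
    | refine Tf.eq ?_ ?_
    | refine tf_isUpw ?_ ?_ ?_ ?_
    | refine tf_isCls ?_ ?_ ?_ ?_ ?_
    | refine tf_leU ?_ ?_ ?_ ?_
    | refine tf_eqU ?_ ?_ ?_ ?_
    | refine tf_isPoset ?_ ?_
    | refine tf_isNPU ?_ ?_
    | refine tf_isDiff ?_ ?_ ?_
    | refine tf_isInter ?_ ?_ ?_
    | refine tf_isPow ?_ ?_
    | refine tf_isOm ?_
    | refine tf_isSuc ?_ ?_
    | refine tf_isEmpty ?_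
    | refine tf_isFun ?_ ?_ ?_
    | refine tf_isOrd ?_
    | refine tf_isTrans ?_
    | refine tf_leCard ?_ ?_
    | refine tf_rel ?_ ?_ ?_
    | refine tf_isPair ?_ ?_ ?_
    | refine tf_isUPair ?_ ?_ ?_
    | refine tf_sub ?_ ?_
    | refine Tf.inf ?_ ?_
    | refine Tf.sup ?_ ?_
    | refine Tf.bihimp ?_ ?_
    | refine Tf.himp ?_ ?_
    | refine Tf.compl ?_
    | refine Tf.iInf ?_
    | refine Tf.iSup ?_

theorem tf_isEmb {s1 s2 s3 s4 s5 s6 : V → BName B} {s1' s2' s3' s4' s5' s6' : V' → Ml G} (h1 : Mor G s1 s1') (h2 : Mor G s2 s2') (h3 : Mor G s3 s3') (h4 : Mor G s4 s4') (h5 : Mor G s5 s5') (h6 : Mor G s6 s6') :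
    Tf G (fun v => isEmb (VB B) (s1 v) (s2 v) (s3 v) (s4 v) (s5 v) (s6 v)) (fun v' => isEmb (QS G) (s1' v') (s2' v') (s3' v') (s4' v') (s5' v') (s6' v')) := by
  unfold isEmb
  repeat' first
    | exact Mor.id
    | refine Mor.snd ?_
    | refine Mor.fst ?_
    | refine Mor.comp h1 ?_
    | refine Mor.comp h2 ?_
    | refine Mor.comp h3 ?_
    | refine Mor.comp h4 ?_
    | refine Mor.comp h5 ?_
    | refine Mor.comp h6 ?_
    | refine Tf.mem ?_ ?_
    | refine Tf.eq ?_ ?_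
    | refine tf_leW ?_ ?_ ?_ ?_
    | refine tf_isUpw ?_ ?_ ?_ ?_
    | refine tf_isCls ?_ ?_ ?_ ?_ ?_
    | refine tf_leU ?_ ?_ ?_ ?_
    | refine tf_eqU ?_ ?_ ?_ ?_
    | refine tf_isPoset ?_ ?_
    | refine tf_isNPU ?_ ?_
    | refine tf_isDiff ?_ ?_ ?_
    | refine tf_isInter ?_ ?_ ?_
    | refine tf_isPow ?_ ?_
    | refine tf_isOm ?_
    | refine tf_isSuc ?_ ?_
    | refine tf_isEmpty ?_
    | refine tf_isFun ?_ ?_ ?_
    | refine tf_isOrd ?_
    | refine tf_isTrans ?_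
    | refine tf_leCard ?_ ?_
    | refine tf_rel ?_ ?_ ?_
    | refine tf_isPair ?_ ?_ ?_
    | refine tf_isUPair ?_ ?_ ?_
    | refine tf_sub ?_ ?_
    | refine Tf.inf ?_ ?_
    | refine Tf.sup ?_ ?_
    | refine Tf.bihimp ?_ ?_
    | refine Tf.himp ?_ ?_
    | refine Tf.compl ?_
    | refine Tf.iInf ?_
    | refine Tf.iSup ?_

theorem tf_isUniv {s1 s2 s3 : V → BName B} {s1' s2' s3' : V' → Ml G} (h1 : Mor G s1 s1') (h2 : Mor G s2 s2') (h3 : Mor G s3 s3') :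
    Tf G (fun v => isUniv (VB B) (s1 v) (s2 v) (s3 v)) (fun v' => isUniv (QS G) (s1' v') (s2' v') (s3' v')) := by
  unfold isUniv
  repeat' first
    | exact Mor.id
    | refine Mor.snd ?_
    | refine Mor.fst ?_
    | refine Mor.comp h1 ?_
    | refine Mor.comp h2 ?_
    | refine Mor.comp h3 ?_
    | refine Tf.mem ?_ ?_
    | refine Tf.eq ?_ ?_
    | refine tf_isEmb ?_ ?_ ?_ ?_ ?_ ?_
    | refine tf_leW ?_ ?_ ?_ ?_
    | refine tf_isUpw ?_ ?_ ?_ ?_
    | refine tf_isCls ?_ ?_ ?_ ?_ ?_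
    | refine tf_leU ?_ ?_ ?_ ?_
    | refine tf_eqU ?_ ?_ ?_ ?_
    | refine tf_isPoset ?_ ?_
    | refine tf_isNPU ?_ ?_
    | refine tf_isDiff ?_ ?_ ?_
    | refine tf_isInter ?_ ?_ ?_
    | refine tf_isPow ?_ ?_
    | refine tf_isOm ?_
    | refine tf_isSuc ?_ ?_
    | refine tf_isEmpty ?_
    | refine tf_isFun ?_ ?_ ?_
    | refine tf_isOrd ?_
    | refine tf_isTrans ?_
    | refine tf_leCard ?_ ?_
    | refine tf_rel ?_ ?_ ?_
    | refine tf_isPair ?_ ?_ ?_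
    | refine tf_isUPair ?_ ?_ ?_
    | refine tf_sub ?_ ?_
    | refine Tf.inf ?_ ?_
    | refine Tf.sup ?_ ?_
    | refine Tf.bihimp ?_ ?_
    | refine Tf.himp ?_ ?_
    | refine Tf.compl ?_
    | refine Tf.iInf ?_
    | refine Tf.iSup ?_

theorem tf_universality :
    Tf G (fun _ : PUnit.{u + 2} => Universality (VB B)) (fun _ => Universality (QS G)) := by
  unfold Universality
  repeat' first
    | exact Mor.id
    | refine Mor.snd ?_
    | refine Mor.fst ?_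
    | refine Tf.mem ?_ ?_
    | refine Tf.eq ?_ ?_
    | refine tf_isUniv ?_ ?_ ?_
    | refine tf_isEmb ?_ ?_ ?_ ?_ ?_ ?_
    | refine tf_leW ?_ ?_ ?_ ?_
    | refine tf_isUpw ?_ ?_ ?_ ?_
    | refine tf_isCls ?_ ?_ ?_ ?_ ?_
    | refine tf_leU ?_ ?_ ?_ ?_
    | refine tf_eqU ?_ ?_ ?_ ?_
    | refine tf_isPoset ?_ ?_
    | refine tf_isNPU ?_ ?_
    | refine tf_isDiff ?_ ?_ ?_
    | refine tf_isInter ?_ ?_ ?_
    | refine tf_isPow ?_ ?_
    | refine tf_isOm ?_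
    | refine tf_isSuc ?_ ?_
    | refine tf_isEmpty ?_
    | refine tf_isFun ?_ ?_ ?_
    | refine tf_isOrd ?_
    | refine tf_isTrans ?_
    | refine tf_leCard ?_ ?_
    | refine tf_rel ?_ ?_ ?_
    | refine tf_isPair ?_ ?_ ?_
    | refine tf_isUPair ?_ ?_ ?_
    | refine tf_sub ?_ ?_
    | refine Tf.inf ?_ ?_
    | refine Tf.sup ?_ ?_
    | refine Tf.bihimp ?_ ?_
    | refine Tf.himp ?_ ?_
    | refine Tf.compl ?_
    | refine Tf.iInf ?_
    | refine Tf.iSup ?_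

theorem tf_zfcBase :
    Tf G (fun _ : PUnit.{u + 2} => zfcBase (VB B)) (fun _ => zfcBase (QS G)) := by
  unfold zfcBase
  repeat' first
    | exact Mor.id
    | refine Mor.snd ?_
    | refine Mor.fst ?_
    | refine Tf.mem ?_ ?_
    | refine Tf.eq ?_ ?_
    | refine tf_isUniv ?_ ?_ ?_
    | refine tf_isEmb ?_ ?_ ?_ ?_ ?_ ?_
    | refine tf_leW ?_ ?_ ?_ ?_
    | refine tf_isUpw ?_ ?_ ?_ ?_
    | refine tf_isCls ?_ ?_ ?_ ?_ ?_
    | refine tf_leU ?_ ?_ ?_ ?_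
    | refine tf_eqU ?_ ?_ ?_ ?_
    | refine tf_isPoset ?_ ?_
    | refine tf_isNPU ?_ ?_
    | refine tf_isDiff ?_ ?_ ?_
    | refine tf_isInter ?_ ?_ ?_
    | refine tf_isPow ?_ ?_
    | refine tf_isOm ?_
    | refine tf_isSuc ?_ ?_
    | refine tf_isEmpty ?_
    | refine tf_isFun ?_ ?_ ?_
    | refine tf_isOrd ?_
    | refine tf_isTrans ?_
    | refine tf_leCard ?_ ?_
    | refine tf_rel ?_ ?_ ?_
    | refine tf_isPair ?_ ?_ ?_
    | refine tf_isUPair ?_ ?_ ?_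
    | refine tf_sub ?_ ?_
    | refine Tf.inf ?_ ?_
    | refine Tf.sup ?_ ?_
    | refine Tf.bihimp ?_ ?_
    | refine Tf.himp ?_ ?_
    | refine Tf.compl ?_
    | refine Tf.iInf ?_
    | refine Tf.iSup ?_

end Pool.Agent.Lib.MP_6b029b_lc.H57
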