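import Pool.Agent.Lib.MP_6b029b_lc.H57.Nice
import Pool.Agent.Lib.MP_6b029b_lc.H57.Pair
import Pool.Agent.Lib.MP_c5d73d_lc.F.TDefs

/-!
# The ultrafilter and the typed form of the theorem
-/

universe u v w

open scoped symmDiff
open Cardinal

namespace Pool.Agent.Lib.MP_6b029b_lc.H57

open Pool.Agent.Lib.MP_100a6c_lc.H53 (Coh)
open Pool.Agent.Lib.MP_c5d73d_lc.F (Rl ssub NU)

theorem Dns.fo_bihimp {P : Type v} {B : Type w} [Preorder P] [CompleteBooleanAlgebra B] {d : P → B}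
    (hd : Dns d) (p : P) (a b : B) : d p ≤ a ⇔ b ↔ ∀ q ≤ p, (d q ≤ a ↔ d q ≤ b) := by
  rw [bihimp_def, le_inf_iff, hd.fo_himp, hd.fo_himp]
  exact ⟨fun h q hq => ⟨h.2 q hq, h.1 q hq⟩, fun h => ⟨fun q hq => (h q hq).2, fun q hq => (h q hq).1⟩⟩

variable {X K : Type u} {A B : Type u} [CompleteBooleanAlgebra A] [CompleteBooleanAlgebra B]
  {dA : Coh X → A} {dB : Coh X × Cd K → B}

/-- Nice names, for a countable index type. -/
theorem nice' (hA : Dns dA) (hB : Dns dB) {ι : Type} [Nonempty ι] [Countable ι] (a : ι → B)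
    (x : Cd K) : ∃ x' ≤ x, ∃ τ : ι → A, ∀ i p y, y ≤ x' → (dB (p, y) ≤ a i ↔ dA p ≤ τ i) := by
  obtain ⟨f, hf⟩ := exists_surjective_nat ι
  obtain ⟨x', hx', t, ht⟩ := nice hA hB cd_closed (fun n => a (f n)) x
  refine ⟨x', hx', fun i => va dA (t (Function.surjInv hf i)), fun i p y hy => ?_⟩
  have := ht (Function.surjInv hf i) p y hy
  rwa [Function.surjInv_eq hf i] at this

/-- Covering by nice names. -/
theorem cover (hA : Dns dA) (hB : Dns dB) (a : Rl B) :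
    ⨆ t : ℕ → ℕ → Option (Coh X), ⨅ n, (a n ⇔ em dA dB (va dA (t n))) = ⊤ := by
  refine hB.eq_top fun p => ?_
  obtain ⟨x', hx', t, ht⟩ := nice hA hB cd_closed a p.2
  refine ⟨(p.1, x'), ⟨le_rfl, hx'⟩, le_iSup_of_le t (le_iInf fun n => ?_)⟩
  rw [hB.fo_bihimp]
  rintro ⟨q, y⟩ hq
  rw [ht n q y hq.2, fo_em hA hB]

theorem eq_of_cover (hA : Dns dA) (hB : Dns dB) (a : Rl B) {b c : B}
    (h : ∀ τ : Rl A, (⨅ n, (a n ⇔ em dA dB (τ n))) ⊓ b = (⨅ n, (a n ⇔ em dA dB (τ n))) ⊓ c) :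
    b = c := by
  have key : ∀ d : B, d = ⨆ t : ℕ → ℕ → Option (Coh X),
      (⨅ n, (a n ⇔ em dA dB (va dA (t n)))) ⊓ d := by
    intro d
    rw [← iSup_inf_eq, cover hA hB a, top_inf_eq]
  rw [key b, key c]
  exact iSup_congr fun t => h fun n => va dA (t n)

theorem le_of_cover (hA : Dns dA) (hB : Dns dB) (a : Rl B) {b c : B}
    (h : ∀ τ : Rl A, (⨅ n, (a n ⇔ em dA dB (τ n))) ⊓ b ≤ c) : b ≤ c := by
  have key : b = ⨆ t : ℕ → ℕ → Option (Coh X),
      (⨅ n, (a n ⇔ em dA dB (va dA (t n)))) ⊓ b := by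
    rw [← iSup_inf_eq, cover hA hB a, top_inf_eq]
  rw [key]
  exact iSup_le fun t => h fun n => va dA (t n)

/-- The ultrafilter. -/
noncomputable def UU (dA : Coh X → A) (dB : Coh X × Cd K → B) (U : Rl A → A) (a : Rl B) : B :=
  ⨆ τ : Rl A, (⨅ n, (a n ⇔ em dA dB (τ n))) ⊓ em dA dB (U τ)

theorem bihimp_le_trans {a b c : B} : (a ⇔ b) ⊓ (a ⇔ c) ≤ b ⇔ c := by
  rw [bihimp_def, bihimp_def, bihimp_def]
  refine le_inf ?_ ?_
  · rw [le_himp_iff]
    have h1 : (b ⇨ a) ⊓ (a ⇨ b) ⊓ ((c ⇨ a) ⊓ (a ⇨ c)) ⊓ c ≤ a :=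
      (inf_le_inf_right _ (inf_le_right.trans inf_le_left)).trans himp_inf_le
    exact (le_inf ((inf_le_left.trans inf_le_left).trans inf_le_right) h1).trans himp_inf_le
  · rw [le_himp_iff]
    have h1 : (b ⇨ a) ⊓ (a ⇨ b) ⊓ ((c ⇨ a) ⊓ (a ⇨ c)) ⊓ b ≤ a :=
      (inf_le_inf_right _ (inf_le_left.trans inf_le_left)).trans himp_inf_le
    exact (le_inf ((inf_le_left.trans inf_le_right).trans inf_le_right) h1).trans himp_inf_le

theorem nu_congr {U : Rl A → A} (hU : NU U) (a b : Rl A) : (⨅ n, (a n ⇔ b n)) ⊓ U a ≤ U b := by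
  refine (inf_le_inf_right _ ?_).trans (hU.mono a b)
  refine le_iSup_of_le 0 (le_iInf fun n => (iInf_le _ (n + 0)).trans ?_)
  rw [bihimp_def]
  exact inf_le_right

theorem loc (hA : Dns dA) (hB : Dns dB) {U : Rl A → A} (hU : NU U) (a : Rl B) (τ : Rl A) {Γ : B}
    (h : Γ ≤ ⨅ n, (a n ⇔ em dA dB (τ n))) : Γ ⊓ UU dA dB U a = Γ ⊓ em dA dB (U τ) := by
  refine le_antisymm (le_inf inf_le_left ?_) (le_inf inf_le_left ?_)
  · rw [UU, inf_iSup_eq]
    refine iSup_le fun σ => ?_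
    have h1 : Γ ⊓ ((⨅ n, (a n ⇔ em dA dB (σ n))) ⊓ em dA dB (U σ)) ≤
        em dA dB (⨅ n, (σ n ⇔ τ n)) := by
      rw [em_iInf hA hB]
      refine le_iInf fun n => ?_
      rw [em_bihimp hA hB]
      exact (le_inf ((inf_le_right.trans inf_le_left).trans (iInf_le _ n))
        ((inf_le_left.trans h).trans (iInf_le _ n))).trans bihimp_le_trans
    have h2 : Γ ⊓ ((⨅ n, (a n ⇔ em dA dB (σ n))) ⊓ em dA dB (U σ)) ≤
        em dA dB ((⨅ n, (σ n ⇔ τ n)) ⊓ U σ) := by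
      rw [em_inf hA hB]
      exact le_inf h1 (inf_le_right.trans inf_le_right)
    exact h2.trans (em_mono hA hB (nu_congr hU σ τ))
  · exact (inf_le_inf_right _ h).trans (le_iSup (fun τ : Rl A =>
      (⨅ n, (a n ⇔ em dA dB (τ n))) ⊓ em dA dB (U τ)) τ)

theorem inf_compl_congr {Γ a b : B} (h : Γ ⊓ a = Γ ⊓ b) : Γ ⊓ aᶜ = Γ ⊓ bᶜ := by
  have key : ∀ c : B, Γ ⊓ cᶜ = Γ ⊓ (Γ ⊓ c)ᶜ := fun c => by
    rw [compl_inf, inf_sup_left, inf_compl_self, bot_sup_eq]
  rw [key a, key b, h]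

theorem nu_UU (hA : Dns dA) (hB : Dns dB) {U : Rl A → A} (hU : NU U) : NU (UU dA dB U) where
  compl a := by
    refine eq_of_cover hA hB a fun τ => ?_
    have h1 : (⨅ n, (a n ⇔ em dA dB (τ n))) ≤ ⨅ n, (aᶜ n ⇔ em dA dB (τᶜ n)) := by
      refine le_iInf fun n => (iInf_le _ n).trans ?_
      rw [Pi.compl_apply, Pi.compl_apply, em_compl hA hB, compl_bihimp_compl]
    rw [loc hA hB hU aᶜ τᶜ h1, hU.compl, em_compl hA hB]
    exact (inf_compl_congr (loc hA hB hU a τ le_rfl)).symm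
  inf a b := by
    refine eq_of_cover hA hB a fun τ => eq_of_cover hA hB b fun σ => ?_
    set F := ⨅ n, (a n ⇔ em dA dB (τ n)) with hF
    set G := ⨅ n, (b n ⇔ em dA dB (σ n)) with hG
    have h1 : G ⊓ F ≤ ⨅ n, ((a ⊓ b) n ⇔ em dA dB ((τ ⊓ σ) n)) := by
      refine le_iInf fun n => ?_
      rw [Pi.inf_apply, Pi.inf_apply, em_inf hA hB, bihimp_def]
      have e1 : G ⊓ F ≤ a n ⇔ em dA dB (τ n) := inf_le_right.trans (iInf_le _ n)
      have e2 : G ⊓ F ≤ b n ⇔ em dA dB (σ n) := inf_le_left.trans (iInf_le _ n)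
      rw [bihimp_def] at e1 e2
      refine le_inf ?_ ?_
      · rw [le_himp_iff]
        refine le_inf ?_ ?_
        · exact (le_inf (inf_le_left.trans (e1.trans inf_le_left))
            (inf_le_right.trans inf_le_left)).trans himp_inf_le
        · exact (le_inf (inf_le_left.trans (e2.trans inf_le_left))
            (inf_le_right.trans inf_le_right)).trans himp_inf_le
      · rw [le_himp_iff]
        refine le_inf ?_ ?_
        · exact (le_inf (inf_le_left.trans (e1.trans inf_le_right))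
            (inf_le_right.trans inf_le_left)).trans himp_inf_le
        · exact (le_inf (inf_le_left.trans (e2.trans inf_le_right))
            (inf_le_right.trans inf_le_right)).trans himp_inf_le
    have h2 := loc hA hB hU (a ⊓ b) (τ ⊓ σ) h1
    have h3 := loc hA hB hU a τ (Γ := G ⊓ F) inf_le_right
    have h4 := loc hA hB hU b σ (Γ := G ⊓ F) inf_le_left
    rw [← inf_assoc, ← inf_assoc, h2, hU.inf, em_inf hA hB]
    calc G ⊓ F ⊓ (em dA dB (U τ) ⊓ em dA dB (U σ))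
        = (G ⊓ F ⊓ em dA dB (U τ)) ⊓ (G ⊓ F ⊓ em dA dB (U σ)) := inf_inf_distrib_left _ _ _
      _ = (G ⊓ F ⊓ UU dA dB U a) ⊓ (G ⊓ F ⊓ UU dA dB U b) := by rw [h3, h4]
      _ = _ := (inf_inf_distrib_left _ _ _).symm
  mono a b := by
    refine le_of_cover hA hB a fun τ => le_of_cover hA hB b fun σ => ?_
    set F := ⨅ n, (a n ⇔ em dA dB (τ n)) with hF
    set G := ⨅ n, (b n ⇔ em dA dB (σ n)) with hG
    have h3 := loc hA hB hU a τ (Γ := G ⊓ F) inf_le_right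
    have h4 := loc hA hB hU b σ (Γ := G ⊓ F) inf_le_left
    have h5 : G ⊓ F ⊓ ssub a b ≤ em dA dB (ssub τ σ) := by
      unfold ssub
      rw [em_iSup hA hB, inf_iSup_eq]
      refine iSup_mono fun N => ?_
      rw [em_iInf hA hB]
      refine le_iInf fun n => ?_
      rw [em_himp hA hB, le_himp_iff]
      have e1 : G ⊓ F ≤ a (n + N) ⇔ em dA dB (τ (n + N)) := inf_le_right.trans (iInf_le _ _)
      have e2 : G ⊓ F ≤ b (n + N) ⇔ em dA dB (σ (n + N)) := inf_le_left.trans (iInf_le _ _)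
      rw [bihimp_def] at e1 e2
      have e3 : G ⊓ F ⊓ (⨅ n, (a (n + N) ⇨ b (n + N))) ⊓ em dA dB (τ (n + N)) ≤ a (n + N) :=
        (le_inf ((inf_le_left.trans inf_le_left).trans (e1.trans inf_le_left))
          inf_le_right).trans himp_inf_le
      have e4 : G ⊓ F ⊓ (⨅ n, (a (n + N) ⇨ b (n + N))) ⊓ em dA dB (τ (n + N)) ≤ b (n + N) :=
        (le_inf ((inf_le_left.trans inf_le_right).trans (iInf_le _ n)) e3).trans himp_inf_le
      exact (le_inf ((inf_le_left.trans inf_le_left).trans (e2.trans inf_le_right))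
        e4).trans himp_inf_le
    have h6 : G ⊓ (F ⊓ (ssub a b ⊓ UU dA dB U a)) ≤ em dA dB (ssub τ σ ⊓ U τ) := by
      rw [em_inf hA hB]
      refine le_inf ?_ ?_
      · refine le_trans (le_inf (le_inf inf_le_left (inf_le_right.trans inf_le_left)) ?_) h5
        exact inf_le_right.trans (inf_le_right.trans inf_le_left)
      · refine le_trans (le_inf (le_inf inf_le_left (inf_le_right.trans inf_le_left)) ?_)
          (h3.le.trans inf_le_right)
        exact inf_le_right.trans (inf_le_right.trans inf_le_right)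
    have h7 := h6.trans (em_mono hA hB (hU.mono τ σ))
    refine le_trans (le_inf (le_inf inf_le_left (inf_le_right.trans inf_le_left)) h7) ?_
    exact h4.ge.trans inf_le_right

/-! ## The generic graph -/

/-- The Boolean value of `g s t` for the generic relation `g`. -/
noncomputable def gr (dB : Coh X × Cd K → B) (s t : K) : B :=
  ⨆ q : {q : Coh X × Cd K // s ∈ q.2.a ∧ t ∈ q.2.a ∧ q.2.g s t}, dB q.1

theorem fo_gr_pos {q : Coh X × Cd K} {s t : K} (hs : s ∈ q.2.a) (ht : t ∈ q.2.a)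
    (h : q.2.g s t) : dB q ≤ gr dB s t :=
  le_iSup (fun q : {q : Coh X × Cd K // s ∈ q.2.a ∧ t ∈ q.2.a ∧ q.2.g s t} => dB q.1)
    ⟨q, hs, ht, h⟩

theorem fo_gr_neg (hB : Dns dB) {q : Coh X × Cd K} {s t : K} (hs : s ∈ q.2.a) (ht : t ∈ q.2.a)
    (h : ¬ q.2.g s t) : dB q ≤ (gr dB s t)ᶜ := by
  rw [hB.fo_compl]
  intro r hr hcon
  obtain ⟨r', hr', ⟨i, hi⟩, hri⟩ := (hB.fo_iSup r _).1 hcon r le_rfl
  obtain ⟨r'', h1, h2⟩ := hB.comp hri
  have e1 := h2.2.2 s hi.1 t hi.2.1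
  have e2 := ((h1.trans hr').trans hr).2.2 s hs t ht
  exact h (e2.1 (e1.2 hi.2.2))

/-- The typed form of the theorem. -/
theorem typed (hK : continuum.{u} < #K) (hA : Dns dA) (hB : Dns dB) {U : Rl A → A} (hU : NU U)
    (a b : K → ℕ → ℕ → B) :
    ⨅ s, ⨅ t, (gr dB s t ⇔ UU dA dB U (fun n => ⨅ m, (a s n m ⇨ b t n m))) = ⊥ := by
  by_contra hne
  obtain ⟨⟨p, x⟩, hp⟩ := hB.dense _ hne
  have h1 : ∀ s : K, ∃ y ≤ x, s ∈ y.a ∧ ∃ τ : ℕ × ℕ × Bool → A, ∀ i q z, z ≤ y →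
      (dB (q, z) ≤ (if i.2.2 then a s i.1 i.2.1 else b s i.1 i.2.1) ↔ dA q ≤ τ i) := by
    intro s
    obtain ⟨x1, hx1, hs⟩ := exists_add x s
    obtain ⟨y, hy, τ, hτ⟩ := nice' hA hB
      (fun i : ℕ × ℕ × Bool => if i.2.2 then a s i.1 i.2.1 else b s i.1 i.2.1) x1
    exact ⟨y, hy.trans hx1, hy.1 hs, τ, hτ⟩
  choose y hyx hys τ hτ using h1
  obtain ⟨s, t, hst⟩ := pair hK y hys
  set β : A := U (fun n => ⨅ m, (τ s (n, m, true) ⇨ τ t (n, m, false))) with hβ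
  have key : ∀ z : Cd K, z ≤ y s → z ≤ y t →
      dB (p, z) ⊓ UU dA dB U (fun n => ⨅ m, (a s n m ⇨ b t n m)) = dB (p, z) ⊓ em dA dB β := by
    intro z hzs hzt
    refine loc hA hB hU _ _ (le_iInf fun n => ?_)
    rw [em_iInf hA hB]
    have h2 : ∀ m, dB (p, z) ≤ a s n m ⇔ em dA dB (τ s (n, m, true)) := by
      intro m
      rw [hB.fo_bihimp]
      rintro ⟨q, z'⟩ hq
      have := hτ s (n, m, true) q z' (hq.2.trans hzs)
      simp only [if_true] at this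
      rw [this, fo_em hA hB]
    have h3 : ∀ m, dB (p, z) ≤ b t n m ⇔ em dA dB (τ t (n, m, false)) := by
      intro m
      rw [hB.fo_bihimp]
      rintro ⟨q, z'⟩ hq
      have := hτ t (n, m, false) q z' (hq.2.trans hzt)
      simp only [Bool.false_eq_true, if_false] at this
      rw [this, fo_em hA hB]
    rw [hB.fo_bihimp]
    intro q hq
    rw [le_iInf_iff, le_iInf_iff]
    refine forall_congr' fun m => ?_
    rw [em_himp hA hB, hB.fo_himp, hB.fo_himp]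
    have h4 := (hB.fo_bihimp _ _ _).1 (h2 m)
    have h5 := (hB.fo_bihimp _ _ _).1 (h3 m)
    refine forall_congr' fun r => ?_
    constructor
    · intro h hr hr'
      exact (h5 r (hr.trans hq)).1 (h hr ((h4 r (hr.trans hq)).2 hr'))
    · intro h hr hr'
      exact (h5 r (hr.trans hq)).2 (h hr ((h4 r (hr.trans hq)).1 hr'))
  obtain ⟨z, hzs, hzt, hsz, htz, hg⟩ := hst True
  obtain ⟨z', hzs', hzt', hsz', htz', hg'⟩ := hst False
  have e1 : dA p ≤ β := by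
    have h2 : dB (p, z) ≤ gr dB s t := fo_gr_pos hsz htz (hg.2 trivial)
    have h3 : dB (p, z) ≤ gr dB s t ⇔ UU dA dB U (fun n => ⨅ m, (a s n m ⇨ b t n m)) := by
      have h4 : ((p, z) : Coh X × Cd K) ≤ (p, x) := ⟨le_rfl, hzs.trans (hyx s)⟩
      exact ((hB.mono h4).trans hp).trans (iInf_le_of_le s (iInf_le _ t))
    have h4 := ((hB.fo_bihimp _ _ _).1 h3 (p, z) le_rfl).1 h2
    have h5 : dB (p, z) ≤ em dA dB β := by
      have := key z hzs hzt
      rw [inf_eq_left.2 h4] at this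
      exact this.le.trans inf_le_right
    exact (fo_em hA hB (p, z) β).1 h5
  have e2 : dA p ≤ βᶜ := by
    have h2 : dB (p, z') ≤ (gr dB s t)ᶜ := fo_gr_neg hB hsz' htz' hg'.1
    have h3 : dB (p, z') ≤ gr dB s t ⇔ UU dA dB U (fun n => ⨅ m, (a s n m ⇨ b t n m)) := by
      have h4 : ((p, z') : Coh X × Cd K) ≤ (p, x) := ⟨le_rfl, hzs'.trans (hyx s)⟩
      exact ((hB.mono h4).trans hp).trans (iInf_le_of_le s (iInf_le _ t))
    have h4 : dB (p, z') ≤ (UU dA dB U (fun n => ⨅ m, (a s n m ⇨ b t n m)))ᶜ := by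
      rw [hB.fo_compl]
      intro q hq hcon
      have h5 := ((hB.fo_bihimp _ _ _).1 h3 q hq).2 hcon
      exact hB.not_both h5 ((hB.mono hq).trans h2)
    have h5 : dB (p, z') ≤ em dA dB βᶜ := by
      rw [em_compl hA hB]
      have := inf_compl_congr (key z' hzs' hzt')
      rw [inf_eq_left.2 h4] at this
      exact this.le.trans inf_le_right
    exact (fo_em hA hB (p, z') βᶜ).1 h5
  exact hA.not_both e1 e2

end Pool.Agent.Lib.MP_6b029b_lc.H57
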